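import Pool.Agent.Zk36.UW.Dec

/-! Averages over words of complex functions. -/

set_option autoImplicit false
set_option linter.unusedSectionVars false

namespace Pool.Agent.Zk36.UC

open Finset Pool.Agent.Zk36.UW

section
variable {β : Type} [Fintype β]

/-- average over the words of length `k` of a complex function -/
noncomputable def Ac (k : ℕ) (F : List β → ℂ) : ℂ :=
  ⟨Av k (fun w => (F w).re), Av k (fun w => (F w).im)⟩

theorem Ac_re (k : ℕ) (F : List β → ℂ) : (Ac k F).re = Av k (fun w => (F w).re) := rfl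
theorem Ac_im (k : ℕ) (F : List β → ℂ) : (Ac k F).im = Av k (fun w => (F w).im) := rfl

theorem Ac_congr {k : ℕ} {F G : List β → ℂ} (h : ∀ w, w.length = k → F w = G w) :
    Ac k F = Ac k G := by
  apply Complex.ext
  · exact Av_congr fun w hw => by rw [h w hw]
  · exact Av_congr fun w hw => by rw [h w hw]

theorem Ac_add (k : ℕ) (F G : List β → ℂ) : Ac k (fun w => F w + G w) = Ac k F + Ac k G := by
  apply Complex.ext
  · rw [Complex.add_re, Ac_re, Ac_re, Ac_re, ← Av_add]
    exact Av_congr fun w _ => Complex.add_re _ _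
  · rw [Complex.add_im, Ac_im, Ac_im, Ac_im, ← Av_add]
    exact Av_congr fun w _ => Complex.add_im _ _

theorem Ac_mul (k : ℕ) (a : ℂ) (F : List β → ℂ) : Ac k (fun w => a * F w) = a * Ac k F := by
  apply Complex.ext
  · rw [Complex.mul_re, Ac_re, Ac_re, Ac_im, ← Av_mul, ← Av_mul, ← Av_sub]
    exact Av_congr fun w _ => Complex.mul_re _ _
  · rw [Complex.mul_im, Ac_im, Ac_im, Ac_re, ← Av_mul, ← Av_mul, ← Av_add]
    exact Av_congr fun w _ => Complex.mul_im _ _

theorem Ac_mul_right (k : ℕ) (a : ℂ) (F : List β → ℂ) : Ac k (fun w => F w * a) = Ac k F * a := by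
  rw [mul_comm, ← Ac_mul]
  exact Ac_congr fun w _ => mul_comm _ _

theorem Ac_sub (k : ℕ) (F G : List β → ℂ) : Ac k (fun w => F w - G w) = Ac k F - Ac k G := by
  have h1 : Ac k (fun w => F w - G w) = Ac k (fun w => F w + (-1) * G w) :=
    Ac_congr fun w _ => by ring
  rw [h1, Ac_add, Ac_mul]; ring

theorem Ac_comm (k l : ℕ) (F : List β → List β → ℂ) :
    Ac k (fun u => Ac l (fun v => F u v)) = Ac l (fun v => Ac k (fun u => F u v)) := by
  apply Complex.ext
  · exact Av_comm k l (fun u v => (F u v).re)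
  · exact Av_comm k l (fun u v => (F u v).im)

theorem Ac_append (k l : ℕ) (F : List β → ℂ) :
    Ac (k + l) F = Ac k (fun u => Ac l (fun v => F (u ++ v))) := by
  apply Complex.ext
  · exact Av_append k l (fun w => (F w).re)
  · exact Av_append k l (fun w => (F w).im)

theorem Ac_reverse (k : ℕ) (F : List β → ℂ) : Ac k (fun w => F w.reverse) = Ac k F := by
  apply Complex.ext
  · exact Av_reverse k (fun w => (F w).re)
  · exact Av_reverse k (fun w => (F w).im)

theorem Ac_real (k : ℕ) (f : List β → ℝ) : Ac k (fun w => (f w : ℂ)) = (Av k f : ℂ) := by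
  apply Complex.ext
  · rfl
  · rw [Ac_im, Complex.ofReal_im]
    exact Av_zero k

theorem Ac_norm (k : ℕ) (F : List β → ℂ) : ‖Ac k F‖ ≤ Av k (fun w => ‖F w‖) := by
  set z := Ac k F with hz
  by_cases h0 : z = 0
  · rw [h0, norm_zero]
    exact Av_nonneg fun w _ => norm_nonneg _
  · have hn : 0 < ‖z‖ := norm_pos_iff.2 h0
    set u : ℂ := (starRingEnd ℂ) z / ‖z‖ with hu
    have hu1 : ‖u‖ = 1 := by
      rw [hu, norm_div, Complex.norm_conj, Complex.norm_real, norm_norm, div_self hn.ne']
    have h1 : (u * z).re = ‖z‖ := by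
      have : u * z = (‖z‖ : ℂ) := by
        rw [hu, div_mul_eq_mul_div, mul_comm, Complex.mul_conj, Complex.normSq_eq_norm_sq]
        have hn' : (‖z‖ : ℂ) ≠ 0 := by exact_mod_cast hn.ne'
        push_cast
        field_simp
      rw [this, Complex.ofReal_re]
    rw [← h1, hz, ← Ac_mul, Ac_re]
    refine Av_mono fun w _ => ?_
    refine (Complex.re_le_norm _).trans ?_
    rw [norm_mul, hu1, one_mul]

/-- Cauchy-Schwarz -/
theorem Ac_cs (k : ℕ) (F G : List β → ℂ) :
    ‖Ac k (fun w => F w * G w)‖^2 ≤ Av k (fun w => ‖F w‖ ^ 2) * Av k (fun w => ‖G w‖ ^ 2) := by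
  have h1 := Ac_norm k (fun w => F w * G w)
  have h2 := Av_cs k (fun w => ‖F w‖) (fun w => ‖G w‖)
  have h3 : Av k (fun w => ‖F w * G w‖) = Av k (fun w => ‖F w‖ * ‖G w‖) :=
    Av_congr fun w _ => norm_mul _ _
  rw [h3] at h1
  exact (pow_le_pow_left₀ (norm_nonneg _) h1 2).trans h2

variable [Nonempty β]

theorem Ac_const (k : ℕ) (a : ℂ) : Ac k (fun _ : List β => a) = a := by
  apply Complex.ext
  · exact Av_const k a.re
  · exact Av_const k a.im

end

section
variable {β : Type} [Fintype β]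

/-- **decomposition at the first good block** -/
theorem decc (N : ℕ) (gi : List β → ℝ) (r : ℕ) (k : ℕ) (F : List β → ℂ) :
    Ac (k*N+r) F = ∑ s ∈ range k, Ac (s*N) (fun d => (bi N gi s d : ℂ) *
      Ac N (fun g => (gi g : ℂ) * Ac ((k-1-s)*N+r) (fun w => F (d ++ (g ++ w))))) +
      Ac (k*N+r) (fun w => (bi N gi k w : ℂ) * F w) := by
  apply Complex.ext
  · rw [Complex.add_re, Complex.re_sum, Ac_re, dec N gi r k]
    simp only [Ac_re, Complex.re_ofReal_mul]
  · rw [Complex.add_im, Complex.im_sum, Ac_im, dec N gi r k]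
    simp only [Ac_im, Complex.im_ofReal_mul]

end

end Pool.Agent.Zk36.UC
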