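import Pool.Agent.Zk36.UC.S

/-! Bounds for the complex kernels. -/

set_option autoImplicit false
set_option linter.unusedSectionVars false

namespace Pool.Agent.Zk36.UC

open Finset Pool.Agent.Zk36.UW

variable {β : Type} [Fintype β] [Nonempty β]

variable {N : ℕ} {gi X : List β → ℝ} {c0 θ B : ℝ}

theorem norm_bi_sq (H : Hyp N gi X c0 θ B) (s : ℕ) (d : List β) :
    ‖(bi N gi s d : ℂ)‖ ^ 2 = bi N gi s d := by
  rw [Complex.norm_real, Real.norm_eq_abs, sq_abs]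
  exact bi_sq H.gi01 s d

theorem Ac_bi (N : ℕ) (gi : List β → ℝ) (r k : ℕ) :
    Ac (k*N+r) (fun w => (bi N gi k w : ℂ)) = ((1 - Av N gi : ℝ) : ℂ)^k := by
  rw [Ac_real, Av_bi]
  push_cast
  ring

theorem Ac_bi' (H : Hyp N gi X c0 θ B) (s : ℕ) :
    Ac (s*N) (fun w => (bi N gi s w : ℂ)) = ((1 - Av N gi : ℝ) : ℂ)^s := by
  have := Ac_bi N gi 0 s
  rwa [add_zero] at this

theorem qc_le (H : Hyp N gi X c0 θ B) (hθ : 0 < θ) {t : ℂ} (ht : ‖t‖ ≤ θ / 12) (s : ℕ)
    (c : List β) (z : ℝ) : qc N gi X t s c z ≤ (1 - Av N gi)^s * (72 * (‖t‖/θ)^2) *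
      Av N (fun g => Av (s*N) (fun d => Real.exp (θ * |X (c ++ (d ++ g))|) +
        Real.exp (θ * |X g|) + Real.exp (θ * |z|))) := by
  unfold qc
  rw [← Av_mul]
  refine Av_mono fun g _ => ?_
  have h1 : kerc N gi X t s c z g - ((1 - Av N gi : ℝ) : ℂ)^s =
      Ac (s*N) (fun d => (bi N gi s d : ℂ) *
      (ex t (X (c ++ (d ++ g)) - X g - z) - 1)) := by
    unfold kerc
    rw [← Ac_bi' H, ← Ac_sub]
    exact Ac_congr fun d _ => by ring
  have h2 := Ac_cs (s*N) (fun d => (bi N gi s d : ℂ))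
    (fun d => ex t (X (c ++ (d ++ g)) - X g - z) - 1)
  rw [← h1] at h2
  have h3 : Av (s*N) (fun d => ‖(bi N gi s d : ℂ)‖ ^ 2) = (1 - Av N gi)^s := by
    rw [← Av_bi' H]
    exact Av_congr fun d _ => norm_bi_sq H s d
  rw [h3] at h2
  have hp : 0 ≤ (1 - Av N gi)^s := pow_nonneg (by linarith [H.p1]) s
  calc gi g * ‖kerc N gi X t s c z g - ((1 - Av N gi : ℝ) : ℂ)^s‖^2
      ≤ 1 * ‖kerc N gi X t s c z g - ((1 - Av N gi : ℝ) : ℂ)^s‖^2 :=
        mul_le_mul_of_nonneg_right (H.gi1 g) (sq_nonneg _)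
    _ ≤ (1 - Av N gi)^s * Av (s*N) (fun d => ‖ex t (X (c ++ (d ++ g)) - X g - z) - 1‖^2) := by
        rw [one_mul]; exact h2
    _ ≤ (1 - Av N gi)^s * Av (s*N) (fun d => (72 * (‖t‖/θ)^2) *
          (Real.exp (θ * |X (c ++ (d ++ g))|) +
          Real.exp (θ * |X g|) + Real.exp (θ * |z|))) := by
        apply mul_le_mul_of_nonneg_left _ hp
        refine Av_mono fun d _ => ?_
        apply ex_sub_one_sq hθ ht
        calc |X (c ++ (d ++ g)) - X g - z| ≤ |X (c ++ (d ++ g)) - X g| + |z| := abs_sub _ _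
          _ ≤ |X (c ++ (d ++ g))| + |X g| + |z| := by
              have := abs_sub (X (c ++ (d ++ g))) (X g)
              linarith
    _ = _ := by rw [Av_mul]; ring

theorem bc_le (H : Hyp N gi X c0 θ B) (hθ : 0 < θ) {t : ℂ} (ht : ‖t‖ ≤ θ / 12) (r k : ℕ)
    (c : List β) (z : ℝ) : bc N gi X t r k c z ≤ (1 - Av N gi)^k * (72 * (‖t‖/θ)^2) *
      Av (k*N+r) (fun w => Real.exp (θ * |X (c ++ w)|) + 1 + Real.exp (θ * |z|)) := by
  unfold bc
  have h1 : lasc N gi X t r k c z - ((1 - Av N gi : ℝ) : ℂ)^k =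
      Ac (k*N+r) (fun d => (bi N gi k d : ℂ) * (ex t (X (c ++ d) - z) - 1)) := by
    unfold lasc
    rw [← Ac_bi N gi r, ← Ac_sub]
    exact Ac_congr fun d _ => by ring
  have h2 := Ac_cs (k*N+r) (fun d => (bi N gi k d : ℂ)) (fun d => ex t (X (c ++ d) - z) - 1)
  rw [← h1] at h2
  have h3 : Av (k*N+r) (fun d => ‖(bi N gi k d : ℂ)‖ ^ 2) = (1 - Av N gi)^k := by
    rw [← Av_bi N gi r]
    exact Av_congr fun d _ => norm_bi_sq H k d
  rw [h3] at h2
  have hp : 0 ≤ (1 - Av N gi)^k := pow_nonneg (by linarith [H.p1]) k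
  calc ‖lasc N gi X t r k c z - ((1 - Av N gi : ℝ) : ℂ)^k‖^2
      ≤ (1 - Av N gi)^k * Av (k*N+r) (fun d => ‖ex t (X (c ++ d) - z) - 1‖^2) := h2
    _ ≤ (1 - Av N gi)^k * Av (k*N+r) (fun d => (72 * (‖t‖/θ)^2) * (Real.exp (θ * |X (c ++ d)|) +
          1 + Real.exp (θ * |z|))) := by
        apply mul_le_mul_of_nonneg_left _ hp
        refine Av_mono fun d _ => ?_
        have h4 := ex_sub_one_sq (t := t) (D := X (c ++ d) - z) (x := X (c ++ d)) (y := 0) (z := z)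
          hθ ht (by rw [abs_zero, add_zero]; exact abs_sub _ _)
        rw [abs_zero, mul_zero, Real.exp_zero] at h4
        exact h4
    _ = _ := by rw [Av_mul]; ring

/-- unified notation -/
noncomputable def uc (N : ℕ) (gi X : List β → ℝ) (t : ℂ) (r k s : ℕ) (c : List β) (z : ℝ) : ℝ :=
  if s = k then bc N gi X t r k c z else qc N gi X t s c z

theorem uc_nonneg (H : Hyp N gi X c0 θ B) (t : ℂ) (r k s : ℕ) (c : List β) (z : ℝ) :
    0 ≤ uc N gi X t r k s c z := by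
  unfold uc
  split_ifs
  · exact sq_nonneg _
  · exact Av_nonneg fun g _ => mul_nonneg (H.gi0 g) (sq_nonneg _)

theorem uc_avg (H : Hyp N gi X c0 θ B) (hθ : 0 < θ) (hB : 1 ≤ B) {ρ : ℝ} (hρ : (1 - c0) * B ≤ ρ^2)
    {t : ℂ} (ht : ‖t‖ ≤ θ / 12) {r : ℕ} (hr : r ≤ N) (k s : ℕ) (hs : s ≤ k) (L m : ℕ)
    (hL : L ≤ m * N) (ζ : List β → ℝ) (hζ : Av L (fun c => Real.exp (θ * |ζ c|)) ≤ B) :
    Av L (fun c => uc N gi X t r k s c (ζ c)) ≤ 216 * (‖t‖/θ)^2 * B^(m+1) * (ρ^s)^2 := by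
  set p := Av N gi with hp
  have hp1 : p ≤ 1 := H.p1
  have hq0 : 0 ≤ 1 - p := by linarith
  have hT : 0 ≤ 72 * (‖t‖/θ)^2 := by positivity
  have hB0 : 0 < B := by linarith
  have hqB : ((1 - p) * B)^s ≤ (ρ^s)^2 := by
    rw [← pow_mul, mul_comm s 2, pow_mul]
    apply pow_le_pow_left₀ (mul_nonneg hq0 hB0.le)
    refine le_trans ?_ hρ
    apply mul_le_mul_of_nonneg_right _ hB0.le
    linarith [H.pos]
  have hBk : B ≤ B^(m+s+1) := by
    calc B = B^1 := (pow_one B).symm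
      _ ≤ _ := pow_le_pow_right₀ hB (by omega)
  -- both cases give the same bound
  have key : ∀ E : ℝ, E ≤ (1 - p)^s * (72 * (‖t‖/θ)^2) * (B^(m+s+1) + B + B) →
      E ≤ 216 * (‖t‖/θ)^2 * B^(m+1) * (ρ^s)^2 := by
    intro E hE
    calc E ≤ (1 - p)^s * (72 * (‖t‖/θ)^2) * (B^(m+s+1) + B + B) := hE
      _ ≤ (1 - p)^s * (72 * (‖t‖/θ)^2) * (3 * B^(m+s+1)) := by
          apply mul_le_mul_of_nonneg_left _ (mul_nonneg (pow_nonneg hq0 s) hT)
          linarith
      _ = 216 * (‖t‖/θ)^2 * B^(m+1) * ((1 - p) * B)^s := by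
          rw [mul_pow, show m + s + 1 = m + 1 + s by ring, pow_add B (m+1) s]; ring
      _ ≤ _ := by
          apply mul_le_mul_of_nonneg_left hqB
          positivity
  apply key
  unfold uc
  by_cases hsk : s = k
  · subst hsk
    simp only [if_true]
    refine (Av_mono (G := fun c => (1 - p)^s * (72 * (‖t‖/θ)^2) *
      Av (s*N+r) (fun w => Real.exp (θ * |X (c ++ w)|) + 1 + Real.exp (θ * |ζ c|)))
      fun c _ => bc_le H hθ ht r s c (ζ c)).trans ?_
    rw [Av_mul]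
    apply mul_le_mul_of_nonneg_left _ (mul_nonneg (pow_nonneg hq0 s) hT)
    have h1 : Av L (fun c => Av (s*N+r) (fun w => Real.exp (θ * |X (c ++ w)|) + 1 +
        Real.exp (θ * |ζ c|))) = Av (L + (s*N+r)) (fun w => Real.exp (θ * |X w|)) + 1 +
        Av L (fun c => Real.exp (θ * |ζ c|)) := by
      rw [Av_append]
      have h2 : ∀ c, Av (s*N+r) (fun w => Real.exp (θ * |X (c ++ w)|) + 1 +
        Real.exp (θ * |ζ c|)) = Av (s*N+r) (fun w => Real.exp (θ * |X (c ++ w)|)) + 1 +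
        Real.exp (θ * |ζ c|) := by
        intro c
        rw [Av_add, Av_add, Av_const, Av_const]
      simp only [h2]
      rw [Av_add, Av_add, Av_const]
    rw [h1]
    have h2 := H.mom (L + (s*N+r)) (m+s+1) (by omega) (by
      have : (m+s+1)*N = m*N + s*N + N := by ring
      omega)
    linarith
  · simp only [if_neg hsk]
    refine (Av_mono (G := fun c => (1 - p)^s * (72 * (‖t‖/θ)^2) *
      Av N (fun g => Av (s*N) (fun d => Real.exp (θ * |X (c ++ (d ++ g))|) +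
        Real.exp (θ * |X g|) + Real.exp (θ * |ζ c|))))
      fun c _ => qc_le H hθ ht s c (ζ c)).trans ?_
    rw [Av_mul]
    apply mul_le_mul_of_nonneg_left _ (mul_nonneg (pow_nonneg hq0 s) hT)
    have h1 : Av L (fun c => Av N (fun g => Av (s*N) (fun d => Real.exp (θ * |X (c ++ (d ++ g))|) +
        Real.exp (θ * |X g|) + Real.exp (θ * |ζ c|)))) =
        Av (L + (s*N+N)) (fun w => Real.exp (θ * |X w|)) + Av N (fun g => Real.exp (θ * |X g|)) +
        Av L (fun c => Real.exp (θ * |ζ c|)) := by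
      rw [Av_append]
      have h2 : ∀ c, Av N (fun g => Av (s*N) (fun d => Real.exp (θ * |X (c ++ (d ++ g))|) +
        Real.exp (θ * |X g|) + Real.exp (θ * |ζ c|))) =
        Av (s*N+N) (fun w => Real.exp (θ * |X (c ++ w)|)) + Av N (fun g => Real.exp (θ * |X g|)) +
        Real.exp (θ * |ζ c|) := by
        intro c
        rw [Av_append, Av_comm]
        simp only [Av_add, Av_const]
      simp only [h2]
      rw [Av_add, Av_add, Av_const]
    rw [h1]
    have h2 := H.mom (L + (s*N+N)) (m+s+1) (by omega) (by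
      have : (m+s+1)*N = m*N + s*N + N := by ring
      omega)
    have h3 := H.mom N 1 le_rfl (by omega)
    rw [pow_one] at h3
    linarith

end Pool.Agent.Zk36.UC
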