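import Pool.Agent.Zk36.UC.SL2

/-! Cumulants of the scaling limits of the winding angle. -/

set_option autoImplicit false

namespace Pool.Agent.Zk36.UC

open MeasureTheory Filter Topology H906K Pool.Agent.Zk36.CG Pool.Agent.Zk36.UW ProbabilityTheory
open scoped ENNReal

/-- the `j`-th cumulant of a measure on the line -/
noncomputable def cumulant (μ : Measure ℝ) (j : ℕ) : ℝ :=
  iteratedDeriv j (fun t : ℝ => Real.log (∫ x, Real.exp (t * x) ∂μ)) 0

theorem iter_sq (h : ℂ) (j : ℕ) : iteratedDeriv j (fun z : ℂ => 3 * h * z ^ 2) 0 =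
    if j = 2 then 6 * h else 0 := by
  rw [iteratedDeriv_const_mul_field (3 * h) (fun z : ℂ => z ^ 2), iteratedDeriv_fun_pow_zero]
  split_ifs
  · norm_num [Nat.factorial]
    ring
  · ring

/-- cumulants of a measure whose complex exponential moments are close to those of the normal law
of variance `6 h` -/
theorem cum_of_complex {μ : Measure ℝ} [IsProbabilityMeasure μ] {h R K : ℝ} (hR : 0 < R)
    (hK : 0 ≤ K) (hKR : K * R ^ 2 ≤ 1 / 2)
    (H : ∀ z : ℂ, ‖z‖ < R → Integrable (fun x : ℝ => Complex.exp (z * (x : ℂ))) μ ∧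
      ‖Complex.exp (-(3 * z ^ 2 * (h : ℂ))) * ∫ x, Complex.exp (z * (x : ℂ)) ∂μ - 1‖ ≤
        K * ‖z‖ ^ 2) (j : ℕ) :
    |cumulant μ j - (if j = 2 then 6 else 0) * h| ≤
      j.factorial * (3 / 2 * K * R * R) / (R / 2) ^ j := by
  set F : ℂ → ℂ := fun z => ∫ x, Complex.exp (z * (x : ℂ)) ∂μ with hF
  set G : ℂ → ℂ := fun z => Complex.exp (-(3 * z ^ 2 * (h : ℂ))) * F z with hG
  -- real exponential moments
  have hreal : ∀ t : ℝ, |t| < R → Integrable (fun x => Real.exp (t * x)) μ := by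
    intro t ht
    have h1 := (H (t : ℂ) (by rw [Complex.norm_real, Real.norm_eq_abs]; exact ht)).1.norm
    refine h1.congr (Eventually.of_forall fun x => ?_)
    simp only
    rw [← Complex.ofReal_mul, ← Complex.ofReal_exp, Complex.norm_real, Real.norm_eq_abs,
      abs_of_pos (Real.exp_pos _)]
  have hFd : DifferentiableOn ℂ F (Metric.ball 0 R) := by
    intro z hz
    rw [mem_ball_zero_iff] at hz
    have h1 : z.re ∈ interior (integrableExpSet (id : ℝ → ℝ) μ) := by
      rw [mem_interior]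
      refine ⟨{t : ℝ | |t| < R}, fun t ht => ?_, isOpen_lt continuous_abs continuous_const,
        (Complex.abs_re_le_norm z).trans_lt hz⟩
      exact hreal t ht
    exact (hasDerivAt_complexMGF h1).differentiableAt.differentiableWithinAt
  have hGd : DifferentiableOn ℂ G (Metric.ball 0 R) := by
    apply DifferentiableOn.mul _ hFd
    apply Differentiable.differentiableOn
    fun_prop
  have hG1 : ∀ z ∈ Metric.ball (0:ℂ) R, ‖G z - 1‖ ≤ K * ‖z‖ ^ 2 := by
    intro z hz
    rw [mem_ball_zero_iff] at hz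
    exact (H z hz).2
  have hG2 : ∀ z ∈ Metric.ball (0:ℂ) R, ‖G z - 1‖ ≤ 1 / 2 := by
    intro z hz
    refine (hG1 z hz).trans (le_trans ?_ hKR)
    rw [mem_ball_zero_iff] at hz
    exact mul_le_mul_of_nonneg_left (pow_le_pow_left₀ (norm_nonneg _) hz.le 2) hK
  have hs : ∀ z ∈ Metric.ball (0:ℂ) R, G z ∈ Complex.slitPlane := by
    intro z hz
    left
    have h2 := Complex.abs_re_le_norm (G z - 1)
    rw [Complex.sub_re, Complex.one_re] at h2
    have := (abs_le.1 (h2.trans (hG2 z hz))).1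
    linarith
  set w : ℂ → ℂ := fun z => Complex.log (G z) with hw
  have hwd : DifferentiableOn ℂ w (Metric.ball 0 R) := hGd.clog hs
  have hwb : ∀ z ∈ Metric.ball (0:ℂ) R, ‖w z‖ ≤ 3 / 2 * K * R * ‖z‖ := by
    intro z hz
    have h2 := Complex.norm_log_one_add_half_le_self (hG2 z hz)
    rw [add_sub_cancel] at h2
    have h3 := hG1 z hz
    rw [mem_ball_zero_iff] at hz
    have h0 := norm_nonneg z
    calc ‖w z‖ ≤ 3 / 2 * ‖G z - 1‖ := h2
      _ ≤ 3 / 2 * (K * ‖z‖ ^ 2) := by linarith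
      _ = (3 / 2 * K * ‖z‖) * ‖z‖ := by ring
      _ ≤ (3 / 2 * K * R) * ‖z‖ := by
          apply mul_le_mul_of_nonneg_right _ h0
          exact mul_le_mul_of_nonneg_left hz.le (by positivity)
  set Q : ℂ → ℂ := fun z => 3 * (h : ℂ) * z ^ 2 + w z with hQ
  have hQd : DifferentiableOn ℂ Q (Metric.ball 0 R) := by
    apply DifferentiableOn.add _ hwd
    apply Differentiable.differentiableOn
    fun_prop
  have hre : ∀ t : ℝ, |t| < R → Real.log (∫ x, Real.exp (t * x) ∂μ) = (Q (t : ℂ)).re := by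
    intro t ht
    have hpos : 0 < ∫ x, Real.exp (t * x) ∂μ := integral_exp_pos (hreal t ht)
    have h1 : F (t : ℂ) = ((∫ x, Real.exp (t * x) ∂μ : ℝ) : ℂ) := by
      rw [← integral_complex_ofReal]
      show ∫ x, Complex.exp ((t : ℂ) * (x : ℂ)) ∂μ = _
      refine integral_congr_ae (Eventually.of_forall fun x => ?_)
      simp only
      push_cast
      rfl
    have h2 : G (t : ℂ) = ((Real.exp (-(3 * t ^ 2 * h)) * ∫ x, Real.exp (t * x) ∂μ : ℝ) : ℂ) := by
      rw [hG]
      simp only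
      rw [h1]
      push_cast
      rfl
    have h3 : w (t : ℂ) = ((Real.log (Real.exp (-(3 * t ^ 2 * h)) *
        ∫ x, Real.exp (t * x) ∂μ) : ℝ) : ℂ) := by
      rw [hw]
      simp only
      rw [h2, Complex.ofReal_log (by positivity)]
    rw [hQ]
    simp only
    rw [h3, Real.log_mul (Real.exp_pos _).ne' hpos.ne', Real.log_exp, Complex.add_re,
      Complex.ofReal_re]
    have h4 : (3 * (h : ℂ) * (t : ℂ) ^ 2).re = 3 * h * t ^ 2 := by
      rw [← Complex.ofReal_pow, show (3 * (h : ℂ) * ((t ^ 2 : ℝ) : ℂ)) =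
        ((3 * h * t ^ 2 : ℝ) : ℂ) by push_cast; ring, Complex.ofReal_re]
    rw [h4]
    ring
  have h5 := (real_iter hQd hre j).2 0 (by simpa using hR)
  have hcd : ContDiffAt ℂ j w 0 :=
    (hwd.contDiffOn Metric.isOpen_ball).contDiffAt
      (Metric.isOpen_ball.mem_nhds (Metric.mem_ball_self hR))
  have h6 : iteratedDeriv j Q 0 = (if j = 2 then 6 * (h : ℂ) else 0) + iteratedDeriv j w 0 := by
    rw [hQ, iteratedDeriv_fun_add (by fun_prop) hcd, iter_sq]
  have h7 := cauchy0 hR (by positivity : 0 ≤ 3 / 2 * K * R) hwd hwb j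
  have h8 : cumulant μ j = (iteratedDeriv j Q 0).re := by
    unfold cumulant
    rw [h5, Complex.ofReal_zero]
  rw [h8, h6, Complex.add_re]
  have h9 : (if j = 2 then 6 * (h : ℂ) else 0).re = (if j = 2 then 6 else 0) * h := by
    split_ifs
    · simp
    · simp
  rw [h9, add_sub_cancel_left]
  exact (Complex.abs_re_le_norm _).trans h7

/-- **cumulants of the scaling limits** -/
theorem limit_cumulants : ∀ j : ℕ, ∃ K : ℝ, ∀ (h : ℝ) (μ : ProbabilityMeasure ℝ),
    ScalingLimit h μ → |cumulant (μ : Measure ℝ) j - (if j = 2 then 6 else 0) * h| ≤ K := by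
  intro j
  obtain ⟨R, hR, K, hK, H⟩ := limit_complex
  set R' := min R (1 / (2 * (K + 1))) with hR'
  have hR0 : 0 < R' := by positivity
  have hKR : K * R' ^ 2 ≤ 1 / 2 := by
    have h1 : R' ≤ 1 / (2 * (K + 1)) := min_le_right _ _
    have h2 : R' ^ 2 ≤ (1 / (2 * (K + 1))) ^ 2 := pow_le_pow_left₀ hR0.le h1 2
    have h3 : K * (1 / (2 * (K + 1))) ^ 2 ≤ 1 / 2 := by
      rw [div_pow, one_pow, mul_one_div, div_le_div_iff₀ (by positivity) (by norm_num)]
      nlinarith
    exact (mul_le_mul_of_nonneg_left h2 hK).trans h3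
  refine ⟨j.factorial * (3 / 2 * K * R' * R') / (R' / 2) ^ j, fun h μ hμ => ?_⟩
  exact cum_of_complex hR0 hK hKR
    (fun z hz => H h μ hμ z (hz.trans_le (min_le_left _ _))) j

end Pool.Agent.Zk36.UC
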