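import Pool.Agent.Zk36.UC.Cum

/-! The final statements, in terms of the law of the winding angle. -/

set_option autoImplicit false

namespace Pool.Agent.Zk36.UC

open MeasureTheory Filter Topology H906K Pool.Agent.Zk36.CG Pool.Agent.Zk36.UW
open scoped ENNReal

theorem cumulant_law (n M j : ℕ) :
    cumulant (lawW n M : Measure ℝ) j = iteratedDeriv j (lmg n M) 0 := by
  unfold cumulant
  congr 1
  funext t
  have h : ∫ x, Real.exp (t * x) ∂(lawW n M : Measure ℝ) = Real.exp (lmg n M t) :=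
    (exp_lmg n M t).symm
  rw [h, Real.log_exp]

theorem fin_complex : ∃ R : ℝ, 0 < R ∧ ∃ K : ℝ, 0 ≤ K ∧ ∃ ε : ℕ → ℝ, Tendsto ε atTop (𝓝 0) ∧
    (∀ n, 0 ≤ ε n) ∧ ∀ n : ℕ, 1 ≤ n → ∀ (M : ℕ) (z : ℂ), ‖z‖ < R → ∃ w : ℂ,
      ‖w‖ ≤ (K + ε n * ht n M) * ‖z‖ ^ 2 ∧
        ∫ x, Complex.exp (z * (x : ℂ)) ∂(lawW n M : Measure ℝ) =
          Complex.exp (3 * z ^ 2 * (ht n M : ℂ) + w) := by
  obtain ⟨R, hR, K, hK, ε, hε, hε0, H⟩ := complex_unif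
  refine ⟨R, hR, K, hK, ε, hε, hε0, fun n hn M z hz => ?_⟩
  obtain ⟨w, h1, h2⟩ := H n hn M z hz
  refine ⟨w, h1, ?_⟩
  rw [← h2]
  exact law_cintegral n M z

theorem fin_cumulants : ∃ κ : ℕ → ℕ → ℝ, ∀ j : ℕ, 1 ≤ j → ∃ K : ℝ, ∀ n : ℕ, 1 ≤ n →
    |κ n j - if j = 2 then 6 else 0| ≤ K / (2 * n + 1) ∧
    ∀ M : ℕ, |cumulant (lawW n M : Measure ℝ) j - κ n j * ht n M| ≤ K := by
  obtain ⟨κ, H⟩ := cumulants_unif
  refine ⟨κ, fun j hj => ?_⟩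
  obtain ⟨K, hK⟩ := H j hj
  refine ⟨K, fun n hn => ⟨(hK n hn).1, fun M => ?_⟩⟩
  rw [cumulant_law]
  exact (hK n hn).2 M

theorem fin_deviations : ∃ a0 : ℝ, 0 < a0 ∧ ∀ a : ℝ, 0 < a → a < a0 → ∀ ε : ℝ, 0 < ε →
    ∃ (n0 : ℕ) (h0 : ℝ), ∀ n M : ℕ, n0 ≤ n → h0 ≤ ht n M →
      |Real.log ((lawW n M : Measure ℝ).real (Set.Ici (a * ht n M))) / ht n M
        + a ^ 2 / 12| < ε ∧
      |Real.log ((lawW n M : Measure ℝ).real (Set.Iic (-(a * ht n M)))) / ht n M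
        + a ^ 2 / 12| < ε := by
  obtain ⟨a0, ha0, H⟩ := deviations_unif
  refine ⟨a0, ha0, fun a ha haa ε hε => ?_⟩
  obtain ⟨n0, h0, H2⟩ := H a ha haa ε hε
  refine ⟨n0, h0, fun n M hn hM => ?_⟩
  obtain ⟨r1, r2⟩ := H2 n M hn hM
  have e1 : (lawW n M : Measure ℝ).real (Set.Ici (a * ht n M)) =
      Ex n M (fun c => if a * ht n M ≤ Wd n M c then 1 else 0) := law_Ici n M _
  have e2 : (lawW n M : Measure ℝ).real (Set.Iic (-(a * ht n M))) =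
      Ex n M (fun c => if Wd n M c ≤ -(a * ht n M) then 1 else 0) := by
    show (lawM n M).real (Set.Iic (-(a * ht n M))) = _
    rw [← integral_indicator_one measurableSet_Iic, law_integral]
    rfl
  rw [e1, e2]
  exact ⟨r1, r2⟩

end Pool.Agent.Zk36.UC
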