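import Mathlib

/-! Analytic logarithms of almost multiplicative sequences of functions. -/

set_option autoImplicit false

namespace Pool.Agent.Zk36.UC

open Metric Filter Topology

/-- existence of a logarithm -/
theorem log_exists {f : ℂ → ℂ} {R : ℝ} (hR : 0 < R) (hf : DifferentiableOn ℂ f (ball 0 R))
    (h0 : f 0 = 1) (hne : ∀ z ∈ ball (0:ℂ) R, f z ≠ 0) :
    ∃ g : ℂ → ℂ, DifferentiableOn ℂ g (ball 0 R) ∧ g 0 = 0 ∧
      (∀ z ∈ ball (0:ℂ) R, Complex.exp (g z) = f z) ∧
      ∀ z ∈ ball (0:ℂ) R, HasDerivAt g (deriv f z / f z) z := by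
  have hd : DifferentiableOn ℂ (fun z => deriv f z / f z) (ball 0 R) :=
    (hf.deriv isOpen_ball).div hf hne
  obtain ⟨g, hg0, hg⟩ := hd.isExactOn_ball.with_val_at 0 0
  refine ⟨g, fun z hz => (hg z hz).differentiableAt.differentiableWithinAt, hg0, ?_, hg⟩
  have hc0 : (0:ℂ) ∈ ball (0:ℂ) R := mem_ball_self hR
  -- the quotient is constant
  have hq : ∀ z ∈ ball (0:ℂ) R,
      HasDerivAt (fun z => f z * Complex.exp (-g z)) 0 z := by
    intro z hz
    have h1 : HasDerivAt f (deriv f z) z :=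
      ((hf z hz).differentiableAt (isOpen_ball.mem_nhds hz)).hasDerivAt
    have h2 := h1.mul (((hg z hz).neg).cexp)
    have h3 : deriv f z * Complex.exp (-g z) +
        f z * (Complex.exp (-g z) * -(deriv f z / f z)) = 0 := by
      have := hne z hz
      have e : f z * (deriv f z / f z) = deriv f z := mul_div_cancel₀ _ this
      calc deriv f z * Complex.exp (-g z) + f z * (Complex.exp (-g z) * -(deriv f z / f z))
          = Complex.exp (-g z) * (deriv f z - f z * (deriv f z / f z)) := by ring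
        _ = 0 := by rw [e]; ring
    rw [← h3]
    exact h2
  intro z hz
  have h3 : f z * Complex.exp (-g z) = f 0 * Complex.exp (-g 0) := by
    apply isOpen_ball.is_const_of_deriv_eq_zero (convex_ball (0:ℂ) R).isPreconnected
      (f := fun z => f z * Complex.exp (-g z)) (𝕜 := ℂ)
      (fun w hw => (hq w hw).differentiableAt.differentiableWithinAt) (fun w hw => (hq w hw).deriv)
      hz hc0
  rw [h0, hg0, neg_zero, Complex.exp_zero, one_mul, Complex.exp_neg] at h3
  have := Complex.exp_ne_zero (g z)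
  field_simp at h3
  exact h3.symm

/-- two logarithms of the same function agree -/
theorem log_unique {g1 g2 : ℂ → ℂ} {R : ℝ} (hR : 0 < R) (h1 : DifferentiableOn ℂ g1 (ball 0 R))
    (h2 : DifferentiableOn ℂ g2 (ball 0 R)) (h0 : g1 0 = g2 0)
    (he : ∀ z ∈ ball (0:ℂ) R, Complex.exp (g1 z) = Complex.exp (g2 z)) :
    ∀ z ∈ ball (0:ℂ) R, g1 z = g2 z := by
  intro z hz
  apply isOpen_ball.eqOn_of_deriv_eq (convex_ball (0:ℂ) R).isPreconnected h1 h2 ?_
    (mem_ball_self hR) h0 hz
  intro w hw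
  have d1 : HasDerivAt g1 (deriv g1 w) w :=
    ((h1 w hw).differentiableAt (isOpen_ball.mem_nhds hw)).hasDerivAt
  have d2 : HasDerivAt g2 (deriv g2 w) w :=
    ((h2 w hw).differentiableAt (isOpen_ball.mem_nhds hw)).hasDerivAt
  have e1 := d1.cexp
  have e2 := d2.cexp
  have e3 : HasDerivAt (fun z => Complex.exp (g1 z)) (Complex.exp (g2 w) * deriv g2 w) w := by
    refine e2.congr_of_eventuallyEq ?_
    filter_upwards [isOpen_ball.mem_nhds hw] with v hv
    exact he v hv
  have := e1.unique e3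
  rw [he w hw] at this
  exact mul_left_cancel₀ (Complex.exp_ne_zero _) this

/-- logarithm of a product -/
theorem log_ratio {Z P Q g p q : ℂ → ℂ} {R : ℝ} (hR : 0 < R)
    (dg : DifferentiableOn ℂ g (ball 0 R)) (dp : DifferentiableOn ℂ p (ball 0 R))
    (dq : DifferentiableOn ℂ q (ball 0 R)) (g0 : g 0 = 0) (p0 : p 0 = 0) (q0 : q 0 = 0)
    (g1 : HasDerivAt g 0 0) (p1 : HasDerivAt p 0 0) (q1 : HasDerivAt q 0 0)
    (eg : ∀ z ∈ ball (0:ℂ) R, Complex.exp (g z) = Z z)
    (ep : ∀ z ∈ ball (0:ℂ) R, Complex.exp (p z) = P z)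
    (eq : ∀ z ∈ ball (0:ℂ) R, Complex.exp (q z) = Q z)
    (h : ∀ z ∈ ball (0:ℂ) R, ‖Z z / (P z * Q z) - 1‖ ≤ 1/2) :
    ∀ z ∈ ball (0:ℂ) R, ‖g z - p z - q z‖ ≤ 1 / R ^ 2 * ‖z‖ ^ 2 := by
  have hexp : ∀ z ∈ ball (0:ℂ) R, Complex.exp (g z - p z - q z) = Z z / (P z * Q z) := by
    intro z hz
    rw [Complex.exp_sub, Complex.exp_sub, eg z hz, ep z hz, eq z hz, div_div]
  have dD : DifferentiableOn ℂ (fun z => g z - p z - q z) (ball 0 R) := (dg.sub dp).sub dq
  have hs : ∀ z ∈ ball (0:ℂ) R, Complex.exp (g z - p z - q z) ∈ Complex.slitPlane := by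
    intro z hz
    have h1 := h z hz
    rw [← hexp z hz] at h1
    left
    have h2 := Complex.abs_re_le_norm (Complex.exp (g z - p z - q z) - 1)
    rw [Complex.sub_re, Complex.one_re] at h2
    have := (abs_le.1 (h2.trans h1)).1
    linarith
  have hl : ∀ z ∈ ball (0:ℂ) R, g z - p z - q z = Complex.log (Complex.exp (g z - p z - q z)) := by
    apply log_unique hR dD
    · exact dD.cexp.clog hs
    · simp only [g0, p0, q0]
      simp
    · intro z hz
      rw [Complex.exp_log (Complex.exp_ne_zero _)]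
  have hb : ∀ z ∈ ball (0:ℂ) R, ‖g z - p z - q z‖ ≤ 1 := by
    intro z hz
    rw [hl z hz]
    have h1 := h z hz
    rw [← hexp z hz] at h1
    have h2 := Complex.norm_log_one_add_half_le_self h1
    rw [add_sub_cancel] at h2
    linarith
  intro z hz
  have hd1 : HasDerivAt (fun z => g z - p z - q z) 0 0 := by
    have h0 := (g1.sub p1).sub q1
    rw [sub_zero, sub_zero] at h0
    exact h0
  have h3 := Complex.dist_le_mul_div_pow_of_mapsTo_ball_of_isLittleO
    (f := fun z => g z - p z - q z) (c := 0) (R₁ := R) (R₂ := 1) (n := 1) dD (fun w hw => by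
      rw [mem_closedBall, g0, p0, q0, sub_zero, sub_zero, dist_zero_right]
      exact hb w hw) (by
      have h4 := hasDerivAt_iff_isLittleO.1 hd1
      simp only [smul_zero, sub_zero, g0, p0, q0] at h4 ⊢
      simpa using h4.norm_right) hz
  simp only [g0, p0, q0, sub_zero, dist_zero_right] at h3
  rw [one_mul, div_pow] at h3
  calc ‖g z - p z - q z‖ ≤ ‖z‖ ^ (1 + 1) / R ^ (1 + 1) := h3
    _ = _ := by ring

/-- almost additive sequences -/
theorem almost_addc {a : ℕ → ℂ} {C : ℝ} (h : ∀ M M', ‖a (M + M') - a M - a M'‖ ≤ C) :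
    ∃ l : ℂ, ∀ M : ℕ, ‖a M - M * l‖ ≤ C := by
  have hC : 0 ≤ C := (norm_nonneg _).trans (h 0 0)
  have hm : ∀ j M : ℕ, ‖a (j * M) - j * a M‖ ≤ (j + 1) * C := by
    intro j M
    induction j with
    | zero =>
      have := h 0 0
      rw [add_zero, sub_self, zero_sub, norm_neg] at this
      simpa using this
    | succ j ih =>
      have h2 := h (j * M) M
      rw [show (j+1) * M = j * M + M by ring]
      push_cast
      have e : a (j * M + M) - ((j:ℂ) + 1) * a M =
          (a (j * M + M) - a (j * M) - a M) + (a (j * M) - j * a M) := by ring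
      rw [e]
      refine (norm_add_le _ _).trans ?_
      linarith
  have hk : ∀ j M : ℕ, 0 < j → 0 < M → ‖a (j * M) / ((j * M : ℕ) : ℂ) - a M / M‖ ≤ 2 * C / M := by
    intro j M hj hM
    have hj' : (0:ℝ) < j := by exact_mod_cast hj
    have hM' : (0:ℝ) < M := by exact_mod_cast hM
    have hjc : (j:ℂ) ≠ 0 := by exact_mod_cast hj.ne'
    have hMc : (M:ℂ) ≠ 0 := by exact_mod_cast hM.ne'
    have e : a (j * M) / ((j * M : ℕ) : ℂ) - a M / M = (a (j * M) - j * a M) / (j * M) := by
      push_cast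
      field_simp
    rw [e, norm_div, norm_mul, Complex.norm_natCast, Complex.norm_natCast,
      div_le_div_iff₀ (by positivity) hM']
    have h1 := hm j M
    have h2 : ((j:ℝ) + 1) * C ≤ 2 * j * C := by
      have : (1:ℝ) ≤ j := by exact_mod_cast hj
      nlinarith
    calc ‖a (j * M) - j * a M‖ * M ≤ (2 * j * C) * M :=
          mul_le_mul_of_nonneg_right (h1.trans h2) hM'.le
      _ = _ := by ring
  have hc : CauchySeq (fun M : ℕ => a M / M) := by
    rw [Metric.cauchySeq_iff']
    intro ε hε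
    obtain ⟨N, hN⟩ := exists_nat_gt (4 * C / ε)
    refine ⟨N + 1, fun M hM => ?_⟩
    have hN1 : (0:ℝ) < (N + 1 : ℕ) := by positivity
    have hMp : 0 < M := by omega
    have hM' : ((N + 1 : ℕ) : ℝ) ≤ M := by exact_mod_cast hM
    have h1 := hk (N + 1) M (by omega) hMp
    have h2 := hk M (N + 1) hMp (by omega)
    rw [mul_comm M (N + 1)] at h2
    rw [dist_eq_norm]
    have e : a M / M - a (N + 1) / ((N + 1 : ℕ) : ℂ) =
        (a ((N + 1) * M) / (((N + 1) * M : ℕ) : ℂ) - a (N + 1) / ((N + 1 : ℕ) : ℂ)) -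
        (a ((N + 1) * M) / (((N + 1) * M : ℕ) : ℂ) - a M / M) := by ring
    rw [e]
    refine (norm_sub_le _ _).trans_lt ?_
    have h3 : 2 * C / M ≤ 2 * C / (N + 1 : ℕ) := by gcongr
    have h4 : 4 * C / (N + 1 : ℕ) < ε := by
      rw [div_lt_iff₀ hN1]
      rw [div_lt_iff₀ hε] at hN
      push_cast
      nlinarith
    have h5 : 4 * C / ((N + 1 : ℕ) : ℝ) = 2 * C / (N + 1 : ℕ) + 2 * C / (N + 1 : ℕ) := by ring
    linarith
  obtain ⟨l, hl⟩ := cauchySeq_tendsto_of_complete hc
  refine ⟨l, fun M => ?_⟩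
  rcases Nat.eq_zero_or_pos M with rfl | hM
  · have := h 0 0
    rw [add_zero, sub_self, zero_sub, norm_neg] at this
    simpa using this
  · have hM' : (0:ℝ) < M := by exact_mod_cast hM
    have hMc : (M:ℂ) ≠ 0 := by exact_mod_cast hM.ne'
    have h2 : Tendsto (fun j : ℕ => ‖a (j * M) / ((j * M : ℕ) : ℂ) - a M / M‖) atTop
        (𝓝 ‖l - a M / M‖) := by
      have h3 : Tendsto (fun j : ℕ => j * M) atTop atTop :=
        tendsto_id.atTop_mul_const' hM
      exact ((hl.comp h3).sub_const _).norm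
    have h3 : Tendsto (fun j : ℕ => (((j:ℝ) + 1) / j) * (C / M)) atTop (𝓝 (1 * (C / M))) := by
      apply Tendsto.mul_const
      have h4 : Tendsto (fun j : ℕ => 1 + 1 / (j:ℝ)) atTop (𝓝 (1 + 0)) :=
        tendsto_const_nhds.add tendsto_one_div_atTop_nhds_zero_nat
      rw [add_zero] at h4
      refine h4.congr' ?_
      filter_upwards [eventually_gt_atTop 0] with j hj
      have : (j:ℝ) ≠ 0 := by exact_mod_cast hj.ne'
      field_simp
    rw [one_mul] at h3
    have h4 : ‖l - a M / M‖ ≤ C / M := by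
      refine le_of_tendsto_of_tendsto h2 h3 ?_
      filter_upwards [eventually_gt_atTop 0] with j hj
      have hj' : (0:ℝ) < j := by exact_mod_cast hj
      have hjc : (j:ℂ) ≠ 0 := by exact_mod_cast hj.ne'
      have e : a (j * M) / ((j * M : ℕ) : ℂ) - a M / M = (a (j * M) - j * a M) / (j * M) := by
        push_cast; field_simp
      rw [e, norm_div, norm_mul, Complex.norm_natCast, Complex.norm_natCast,
        div_le_iff₀ (by positivity)]
      refine (hm j M).trans (le_of_eq ?_)
      field_simp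
    have e : a M - M * l = -(M * (l - a M / M)) := by field_simp; ring
    rw [e, norm_neg, norm_mul, Complex.norm_natCast]
    calc (M:ℝ) * ‖l - a M / M‖ ≤ M * (C / M) := mul_le_mul_of_nonneg_left h4 hM'.le
      _ = C := by field_simp

end Pool.Agent.Zk36.UC
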