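import Pool.Agent.Zk36.CG.Final

/-! The reflection symmetry of the interface. -/

set_option autoImplicit false

namespace Pool.Agent.Zk36.UC

open H906K Pool.Agent.Zk36.CG

theorem jx_eq {m : ℕ} {a b : ℤ} (h : a % ((m : ℤ) + 1) = b % ((m : ℤ) + 1)) : jx m a = jx m b := by
  unfold jx
  simp only [h]

theorem jx_val (m : ℕ) (a : ℤ) : (((jx m a : Fin (m + 1)) : ℕ) : ℤ) = a % ((m : ℤ) + 1) := by
  unfold jx
  simp only
  rw [Int.toNat_of_nonneg (Int.emod_nonneg _ (by omega))]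

/-- reflection of the index of a plaquette -/
def kap (n : ℕ) (i : Fin (2 * n + 1)) : Fin (2 * n + 1) := jx (2 * n) (-((i : ℕ) : ℤ) - 2)

theorem kap_jx (n : ℕ) (j : ℤ) : kap n (jx (2 * n) j) = jx (2 * n) (-j - 2) := by
  unfold kap
  apply jx_eq
  rw [jx_val]
  apply Int.ModEq.sub_right
  apply Int.ModEq.neg
  exact Int.mod_modEq _ _

theorem jx_self (n : ℕ) (i : Fin (2 * n + 1)) : jx (2 * n) ((i : ℕ) : ℤ) = i := by
  apply Fin.ext
  have h := jx_val (2 * n) ((i : ℕ) : ℤ)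
  have h2 : (((i : ℕ) : ℤ)) % (((2 * n : ℕ) : ℤ) + 1) = ((i : ℕ) : ℤ) := by
    apply Int.emod_eq_of_lt (by positivity)
    have := i.2
    push_cast
    omega
  rw [h2] at h
  exact_mod_cast h

theorem kap_kap (n : ℕ) (i : Fin (2 * n + 1)) : kap n (kap n i) = i := by
  have h : kap n i = jx (2 * n) (-((i : ℕ) : ℤ) - 2) := rfl
  rw [h, kap_jx]
  have e : -(-((i : ℕ) : ℤ) - 2) - 2 = ((i : ℕ) : ℤ) := by ring
  rw [e, jx_self]

/-- reflected configuration -/
def sg (n M : ℕ) (c : Fin M → Fin (2 * n + 1) → Bool) : Fin M → Fin (2 * n + 1) → Bool :=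
  fun t i => !(c t (kap n i))

theorem sg_sg (n M : ℕ) (c : Fin M → Fin (2 * n + 1) → Bool) : sg n M (sg n M c) = c := by
  funext t i
  unfold sg
  rw [kap_kap, Bool.not_not]

theorem sg_jx (n M : ℕ) (c : Fin M → Fin (2 * n + 1) → Bool) (t : Fin M) (j : ℤ) :
    sg n M c t (jx (2 * n) (-j - 2)) = !(c t (jx (2 * n) j)) := by
  unfold sg
  rw [kap_jx]
  congr 2
  congr 1
  ring

/-- reflection of the edges -/
def rE : Edg → Edg
  | Edg.v j t => Edg.v (-j - 2) t
  | Edg.h j t => Edg.h (-j - 1) t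

/-- translation of the edges by two periods -/
def tE (n : ℕ) : Edg → Edg
  | Edg.v j t => Edg.v (j + 2 * (2 * n + 1)) t
  | Edg.h j t => Edg.h (j + 2 * (2 * n + 1)) t

theorem link_refl (n M : ℕ) (c : Fin M → Fin (2 * n + 1) → Bool) (a b : Edg)
    (h : Link n M c a b) : Relation.EqvGen (Link n M (sg n M c)) (rE a) (rE b) := by
  cases h with
  | br j t h =>
    apply Relation.EqvGen.rel
    have h1 : sg n M c t (jx (2 * n) (-j - 2)) = true := by rw [sg_jx, h]; rfl
    have h2 := Link.bl (n := n) (M := M) (c := sg n M c) (-j - 2) t h1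
    show Link n M (sg n M c) (Edg.v (-j - 2) t) (Edg.h (-(j + 1) - 1) t)
    rw [show -(j + 1) - 1 = -j - 2 by ring]
    exact h2
  | lt j t h =>
    apply Relation.EqvGen.rel
    have h1 : sg n M c t (jx (2 * n) (-j - 2)) = true := by rw [sg_jx, h]; rfl
    have h2 := Link.rt (n := n) (M := M) (c := sg n M c) (-j - 2) t h1
    show Link n M (sg n M c) (Edg.h (-j - 1) t) (Edg.v (-j - 2) (t + 1))
    rw [show -j - 1 = -j - 2 + 1 by ring]
    exact h2
  | bl j t h =>
    apply Relation.EqvGen.rel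
    have h1 : sg n M c t (jx (2 * n) (-j - 2)) = false := by rw [sg_jx, h]; rfl
    have h2 := Link.br (n := n) (M := M) (c := sg n M c) (-j - 2) t h1
    show Link n M (sg n M c) (Edg.v (-j - 2) t) (Edg.h (-j - 1) t)
    rw [show -j - 1 = -j - 2 + 1 by ring]
    exact h2
  | rt j t h =>
    apply Relation.EqvGen.rel
    have h1 : sg n M c t (jx (2 * n) (-j - 2)) = false := by rw [sg_jx, h]; rfl
    have h2 := Link.lt (n := n) (M := M) (c := sg n M c) (-j - 2) t h1
    show Link n M (sg n M c) (Edg.h (-(j + 1) - 1) t) (Edg.v (-j - 2) (t + 1))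
    rw [show -(j + 1) - 1 = -j - 2 by ring]
    exact h2
  | bot k i hi =>
    apply Relation.EqvGen.symm
    apply Relation.EqvGen.rel
    have h2 := Link.bot (n := n) (M := M) (c := sg n M c) (-k - 1) (n - 1 - i) (by omega)
    show Link n M (sg n M c) (Edg.v (-(k * (2 * n + 1) + 2 * i + 1) - 2) 0)
      (Edg.v (-(k * (2 * n + 1) + 2 * i) - 2) 0)
    have hc : ((n - 1 - i : ℕ) : ℤ) = n - 1 - i := by omega
    rw [hc] at h2
    rw [show (-(k * (2 * n + 1) + 2 * i + 1) - 2 : ℤ) = (-k - 1) * (2 * n + 1) + 2 * (n - 1 - i) by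
      ring, show (-(k * (2 * n + 1) + 2 * i) - 2 : ℤ) =
        (-k - 1) * (2 * n + 1) + 2 * (n - 1 - i) + 1 by ring]
    exact h2

theorem jx_trans (n : ℕ) (j : ℤ) : jx (2 * n) (j + 2 * (2 * n + 1)) = jx (2 * n) j := by
  apply jx_eq
  have e : (j + 2 * (2 * (n:ℤ) + 1)) = j + (((2 * n : ℕ) : ℤ) + 1) * 2 := by push_cast; ring
  rw [e, Int.add_mul_emod_self_left]

theorem link_trans (n M : ℕ) (c : Fin M → Fin (2 * n + 1) → Bool) (a b : Edg)
    (h : Link n M c a b) : Relation.EqvGen (Link n M c) (tE n a) (tE n b) := by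
  apply Relation.EqvGen.rel
  cases h with
  | br j t h =>
    have h2 := Link.br (n := n) (M := M) (c := c) (j + 2 * (2 * n + 1)) t (by rw [jx_trans]; exact h)
    show Link n M c (Edg.v (j + 2 * (2 * n + 1)) t) (Edg.h (j + 1 + 2 * (2 * n + 1)) t)
    rw [show j + 1 + 2 * (2 * (n:ℤ) + 1) = j + 2 * (2 * n + 1) + 1 by ring]
    exact h2
  | lt j t h =>
    exact Link.lt (n := n) (M := M) (c := c) (j + 2 * (2 * n + 1)) t (by rw [jx_trans]; exact h)
  | bl j t h =>
    exact Link.bl (n := n) (M := M) (c := c) (j + 2 * (2 * n + 1)) t (by rw [jx_trans]; exact h)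
  | rt j t h =>
    have h2 := Link.rt (n := n) (M := M) (c := c) (j + 2 * (2 * n + 1)) t (by rw [jx_trans]; exact h)
    show Link n M c (Edg.h (j + 1 + 2 * (2 * n + 1)) t) (Edg.v (j + 2 * (2 * n + 1)) (t + 1))
    rw [show j + 1 + 2 * (2 * (n:ℤ) + 1) = j + 2 * (2 * n + 1) + 1 by ring]
    exact h2
  | bot k i hi =>
    have h2 := Link.bot (n := n) (M := M) (c := c) (k + 2) i hi
    show Link n M c (Edg.v (k * (2 * n + 1) + 2 * i + 2 * (2 * n + 1)) 0)
      (Edg.v (k * (2 * n + 1) + 2 * i + 1 + 2 * (2 * n + 1)) 0)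
    rw [show k * (2 * (n:ℤ) + 1) + 2 * i + 2 * (2 * n + 1) = (k + 2) * (2 * n + 1) + 2 * i by ring,
      show k * (2 * (n:ℤ) + 1) + 2 * i + 1 + 2 * (2 * n + 1) = (k + 2) * (2 * n + 1) + 2 * i + 1 by
        ring]
    exact h2

theorem eqv_map {α γ : Type} {r : α → α → Prop} {s : γ → γ → Prop} (f : α → γ)
    (h : ∀ a b, r a b → Relation.EqvGen s (f a) (f b)) {a b : α} (hab : Relation.EqvGen r a b) :
    Relation.EqvGen s (f a) (f b) := by
  induction hab with
  | rel x y hxy => exact h x y hxy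
  | refl x => exact Relation.EqvGen.refl _
  | symm x y _ ih => exact Relation.EqvGen.symm _ _ ih
  | trans x y z _ _ ih1 ih2 => exact Relation.EqvGen.trans _ _ _ ih1 ih2

theorem end_refl (n M : ℕ) (c : Fin M → Fin (2 * n + 1) → Bool) (X : ℤ) (h : End n M c X) :
    End n M (sg n M c) (-X) := by
  unfold End at h ⊢
  have h1 := eqv_map rE (link_refl n M c) h
  have h2 := eqv_map (tE n) (link_trans n M (sg n M c)) h1
  have e1 : tE n (rE (Edg.v (2 * n) 0)) = Edg.v (2 * n) 0 := by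
    show Edg.v (-(2 * n) - 2 + 2 * (2 * n + 1)) 0 = _
    congr 1
    ring
  have e2 : tE n (rE (Edg.v (2 * n + X) M)) = Edg.v (2 * n + -X) M := by
    show Edg.v (-(2 * n + X) - 2 + 2 * (2 * n + 1)) M = _
    congr 1
    ring
  rw [e1, e2] at h2
  exact h2

theorem Xd_refl (n M : ℕ) (c : Fin M → Fin (2 * n + 1) → Bool) :
    Xd n M (sg n M c) = -Xd n M c := by
  have h1 : End n M c (Xd n M c) := by
    rw [Xd_run]
    exact (end_run n M c _).2 rfl
  have h2 := (end_run n M (sg n M c) _).1 (end_refl n M c _ h1)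
  rw [Xd_run n M (sg n M c), ← h2]

/-- the law of the winding angle is symmetric -/
theorem Ex_symm (n M : ℕ) (f : ℝ → ℝ) :
    Ex n M (fun c => f (Wd n M c)) = Ex n M (fun c => f (-Wd n M c)) := by
  unfold Ex
  congr 1
  refine Finset.sum_nbij' (sg n M) (sg n M) (fun _ _ => Finset.mem_univ _)
    (fun _ _ => Finset.mem_univ _) (fun c _ => sg_sg n M c) (fun c _ => sg_sg n M c)
    (fun c _ => ?_)
  congr 1
  unfold Wd
  rw [Xd_refl]
  push_cast
  ring

theorem mean_zero (n M : ℕ) : Ex n M (fun c => Wd n M c) = 0 := by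
  have h := Ex_symm n M (fun x => x)
  have h2 : Ex n M (fun c => -Wd n M c) = -Ex n M (fun c => Wd n M c) := by
    unfold Ex
    rw [Finset.sum_neg_distrib, neg_div]
  rw [h2] at h
  linarith

end Pool.Agent.Zk36.UC
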