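import Pool.Agent.Zk36.UC.T
import Pool.Agent.Zk36.UC.L
import Pool.Agent.Zk36.UC.Refl
import Pool.Agent.Zk36.UW.Uni

/-! Complex exponential moments of the winding angle: logarithms and cumulants. -/

set_option autoImplicit false

namespace Pool.Agent.Zk36.UC

open Metric Filter Topology H906K Pool.Agent.Zk36.CG Pool.Agent.Zk36.UW

/-- `E exp (z Wd)` for complex `z` -/
noncomputable def mgc (n M : ℕ) (z : ℂ) : ℂ :=
  (∑ c : Fin M → Fin (2 * n + 1) → Bool, Complex.exp (z * (Wd n M c : ℂ))) /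
    2 ^ ((2 * n + 1) * M)

theorem mgc_eq (n M : ℕ) (hn : 1 ≤ n) (z : ℂ) : mgc n M z = Zc (XL n) (2 * Real.pi * z) M := by
  have h1 : ∀ c : Fin M → Fin (2 * n + 1) → Bool, ex (2 * Real.pi * z) (XL n (List.ofFn c)) =
      Complex.exp (z * (Wd n M c : ℂ)) := by
    intro c
    unfold ex Wd
    rw [XL_ofFn n M c hn]
    congr 1
    push_cast
    ring
  have h2 : ((2:ℂ) ^ ((2 * n + 1) * M)) = ((2 ^ ((2 * n + 1) * M) : ℝ) : ℂ) := by push_cast; ring
  unfold mgc
  rw [h2]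
  apply Complex.ext
  · rw [Complex.div_ofReal_re, Complex.re_sum]
    unfold Zc
    rw [Ac_re, Av_Ex]
    simp only [h1]
    rfl
  · rw [Complex.div_ofReal_im, Complex.im_sum]
    unfold Zc
    rw [Ac_im, Av_Ex]
    simp only [h1]
    rfl

theorem mgc_diff (n M : ℕ) : Differentiable ℂ (mgc n M) := by
  unfold mgc
  apply Differentiable.div_const
  refine Differentiable.fun_sum fun c _ => ?_
  exact (differentiable_id.mul_const _).cexp

theorem mgc_zero (n M : ℕ) : mgc n M 0 = 1 := by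
  unfold mgc
  simp only [zero_mul, Complex.exp_zero, Finset.sum_const, Finset.card_univ, nsmul_eq_mul, mul_one]
  have h : (Fintype.card (Fin M → Fin (2 * n + 1) → Bool) : ℂ) = 2 ^ ((2 * n + 1) * M) := by
    simp [pow_mul]
  rw [h, div_self (pow_ne_zero _ two_ne_zero)]

theorem mgc_real (n M : ℕ) (t : ℝ) : mgc n M (t : ℂ) = ((Real.exp (lmg n M t) : ℝ) : ℂ) := by
  have h : Real.exp (lmg n M t) =
      (∑ c : Fin M → Fin (2 * n + 1) → Bool, Real.exp (t * Wd n M c)) /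
        2 ^ ((2 * n + 1) * M) := by
    unfold lmg
    rw [Real.exp_log]
    · rfl
    · unfold Ex
      apply div_pos _ (by positivity)
      exact Finset.sum_pos (fun c _ => Real.exp_pos _) Finset.univ_nonempty
  rw [h]
  unfold mgc
  push_cast
  rfl

theorem mgc_deriv (n M : ℕ) : deriv (mgc n M) 0 = 0 := by
  have h1 : HasDerivAt (mgc n M) ((∑ c : Fin M → Fin (2 * n + 1) → Bool,
      Complex.exp (0 * (Wd n M c : ℂ)) * (1 * (Wd n M c : ℂ))) / 2 ^ ((2 * n + 1) * M)) 0 := by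
    unfold mgc
    apply HasDerivAt.div_const
    refine HasDerivAt.fun_sum fun c _ => ?_
    exact ((hasDerivAt_id (0:ℂ)).mul_const _).cexp
  rw [h1.deriv]
  have h2 : (∑ c : Fin M → Fin (2 * n + 1) → Bool, Wd n M c) = 0 := by
    have := mean_zero n M
    unfold Ex at this
    rw [div_eq_zero_iff] at this
    rcases this with h | h
    · exact h
    · exact absurd h (by positivity)
  have h3 : (∑ c : Fin M → Fin (2 * n + 1) → Bool,
      Complex.exp (0 * (Wd n M c : ℂ)) * (1 * (Wd n M c : ℂ))) =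
      ((∑ c : Fin M → Fin (2 * n + 1) → Bool, Wd n M c : ℝ) : ℂ) := by
    push_cast
    exact Finset.sum_congr rfl fun c _ => by rw [zero_mul, Complex.exp_zero]; ring
  rw [h3, h2, Complex.ofReal_zero, zero_div]

/-- derivative of a real-valued restriction -/
theorem real_log {f g : ℂ → ℂ} {u : ℝ → ℝ} {R : ℝ} (hR : 0 < R)
    (hg : DifferentiableOn ℂ g (ball 0 R)) (g0 : g 0 = 0)
    (he : ∀ z ∈ ball (0:ℂ) R, Complex.exp (g z) = f z)
    (hu : ∀ t : ℝ, |t| < R → f (t : ℂ) = ((Real.exp (u t) : ℝ) : ℂ)) (hud : Differentiable ℝ u)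
    (u0 : u 0 = 0) : ∀ t : ℝ, |t| < R → g (t : ℂ) = (u t : ℂ) := by
  intro t ht
  have hI : ∀ s : ℝ, s ∈ Set.Ioo (-R) R → (s : ℂ) ∈ ball (0:ℂ) R := by
    intro s hs
    rw [mem_ball_zero_iff, Complex.norm_real, Real.norm_eq_abs, abs_lt]
    exact hs
  have key : Set.EqOn (fun s : ℝ => g (s : ℂ)) (fun s : ℝ => (u s : ℂ)) (Set.Ioo (-R) R) := by
    have hdg : ∀ s ∈ Set.Ioo (-R) R, HasDerivAt (fun s : ℝ => g (s : ℂ)) (deriv g (s : ℂ)) s := by
      intro s hs
      exact (((hg _ (hI s hs)).differentiableAt (isOpen_ball.mem_nhds (hI s hs))).hasDerivAt).comp_ofReal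
    have hdu : ∀ s : ℝ, HasDerivAt (fun s : ℝ => (u s : ℂ)) ((deriv u s : ℝ) : ℂ) s :=
      fun s => (hud s).hasDerivAt.ofReal_comp
    apply isOpen_Ioo.eqOn_of_deriv_eq (convex_Ioo (-R) R).isPreconnected
      (𝕜 := ℝ) (fun s hs => (hdg s hs).differentiableAt.differentiableWithinAt)
      (fun s _ => (hdu s).differentiableAt.differentiableWithinAt) ?_
      (x := 0) (by simp [hR]) (by simp [g0, u0])
    intro s hs
    rw [(hdg s hs).deriv, (hdu s).deriv]
    have e1 := (hdg s hs).cexp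
    have e2 := (hdu s).cexp
    have e3 : HasDerivAt (fun s : ℝ => Complex.exp (g (s : ℂ)))
        (Complex.exp (u s : ℂ) * ((deriv u s : ℝ) : ℂ)) s := by
      refine e2.congr_of_eventuallyEq ?_
      filter_upwards [isOpen_Ioo.mem_nhds hs] with v hv
      rw [he _ (hI v hv), hu v (abs_lt.2 hv), Complex.ofReal_exp]
    have h4 := e1.unique e3
    have h5 : Complex.exp (g (s : ℂ)) = Complex.exp (u s : ℂ) := by
      rw [he _ (hI s hs), hu s (abs_lt.2 hs), Complex.ofReal_exp]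
    rw [h5] at h4
    exact mul_left_cancel₀ (Complex.exp_ne_zero _) h4
  exact key (abs_lt.1 ht)

theorem lmg_diff (n M : ℕ) : Differentiable ℝ (lmg n M) := by
  unfold lmg
  apply Differentiable.log
  · unfold Ex
    apply Differentiable.div_const
    refine Differentiable.fun_sum fun c _ => ?_
    exact (differentiable_id.mul_const _).exp
  · intro t
    unfold Ex
    apply ne_of_gt
    apply div_pos _ (by positivity)
    exact Finset.sum_pos (fun c _ => Real.exp_pos _) Finset.univ_nonempty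

theorem lmg_zero (n M : ℕ) : lmg n M 0 = 0 := by
  have h := mgc_real n M 0
  rw [Complex.ofReal_zero, mgc_zero] at h
  have h2 : Real.exp (lmg n M 0) = 1 := by exact_mod_cast h.symm
  rwa [Real.exp_eq_one_iff] at h2

/-- **logarithms of the complex exponential moments, uniformly** -/
theorem winding_logs : ∃ R : ℝ, 0 < R ∧ ∃ g : ℕ → ℕ → ℂ → ℂ, ∀ n : ℕ, 1 ≤ n →
    (∀ M, DifferentiableOn ℂ (g n M) (ball 0 R)) ∧ (∀ M, g n M 0 = 0) ∧
    (∀ M, ∀ z ∈ ball (0:ℂ) R, Complex.exp (g n M z) = mgc n M z) ∧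
    (∀ M, ∀ t : ℝ, |t| < R → g n M (t : ℂ) = (lmg n M t : ℂ)) ∧
    (∀ M M', ∀ z ∈ ball (0:ℂ) R,
      ‖g n (M + M') z - g n M z - g n M' z‖ ≤ 1 / R ^ 2 * ‖z‖ ^ 2) := by
  obtain ⟨c0, θ, B, hc0, hc1, hθ, hB, hH⟩ := hyp
  obtain ⟨t1, ht1, hq⟩ := quasic c0 θ B hc0 hc1 hθ hB
  have hπ := Real.pi_pos
  set R := t1 / (2 * Real.pi) with hRd
  have hR : 0 < R := by positivity
  have hn1 : ∀ z ∈ ball (0:ℂ) R, ‖2 * (Real.pi : ℂ) * z‖ ≤ t1 := by
    intro z hz
    rw [mem_ball_zero_iff, hRd, lt_div_iff₀ (by positivity)] at hz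
    rw [norm_mul, norm_mul, Complex.norm_real, Real.norm_eq_abs, abs_of_pos hπ]
    simp only [Complex.norm_ofNat]
    linarith
  have hne : ∀ n : ℕ, 1 ≤ n → ∀ M, ∀ z ∈ ball (0:ℂ) R, mgc n M z ≠ 0 := by
    intro n hn M z hz
    rw [mgc_eq n M hn]
    exact (hq (Row n) (2 * n + 1) (gd n) (XL n) (by omega) (hH n hn) _ (hn1 z hz) M M).1
  have hex : ∀ n M : ℕ, ∃ g : ℂ → ℂ, 1 ≤ n → DifferentiableOn ℂ g (ball 0 R) ∧ g 0 = 0 ∧
      (∀ z ∈ ball (0:ℂ) R, Complex.exp (g z) = mgc n M z) ∧ HasDerivAt g 0 0 := by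
    intro n M
    by_cases hn : 1 ≤ n
    · obtain ⟨g, a1, a2, a3, a4⟩ := log_exists hR (mgc_diff n M).differentiableOn (mgc_zero n M)
        (hne n hn M)
      have a5 := a4 0 (mem_ball_self hR)
      rw [mgc_deriv, zero_div] at a5
      exact ⟨g, fun _ => ⟨a1, a2, a3, a5⟩⟩
    · exact ⟨0, fun h => absurd h hn⟩
  choose g hg using hex
  refine ⟨R, hR, g, fun n hn => ⟨fun M => (hg n M hn).1, fun M => (hg n M hn).2.1,
    fun M => (hg n M hn).2.2.1, fun M => ?_, fun M M' => ?_⟩⟩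
  · exact real_log hR (hg n M hn).1 (hg n M hn).2.1 (hg n M hn).2.2.1
      (fun t _ => mgc_real n M t) (lmg_diff n M) (lmg_zero n M)
  · refine log_ratio hR (hg n _ hn).1 (hg n M hn).1 (hg n M' hn).1 (hg n _ hn).2.1
      (hg n M hn).2.1 (hg n M' hn).2.1 (hg n _ hn).2.2.2 (hg n M hn).2.2.2 (hg n M' hn).2.2.2
      (hg n _ hn).2.2.1 (hg n M hn).2.2.1 (hg n M' hn).2.2.1 ?_
    intro z hz
    rw [mgc_eq n _ hn, mgc_eq n _ hn, mgc_eq n _ hn]
    exact (hq (Row n) (2 * n + 1) (gd n) (XL n) (by omega) (hH n hn) _ (hn1 z hz) M M').2.2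

/-- real and complex iterated derivatives -/
theorem real_iter {G : ℂ → ℂ} {F : ℝ → ℝ} {R : ℝ} (hG : DifferentiableOn ℂ G (ball 0 R))
    (h : ∀ t : ℝ, |t| < R → F t = (G (t : ℂ)).re) (j : ℕ) :
    DifferentiableOn ℂ (iteratedDeriv j G) (ball 0 R) ∧
      ∀ t : ℝ, |t| < R → iteratedDeriv j F t = (iteratedDeriv j G (t : ℂ)).re := by
  induction j with
  | zero =>
    simp only [iteratedDeriv_zero]
    exact ⟨hG, h⟩
  | succ j ih =>
    obtain ⟨h1, h2⟩ := ih
    refine ⟨?_, fun t ht => ?_⟩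
    · rw [iteratedDeriv_succ]
      exact h1.deriv isOpen_ball
    · rw [iteratedDeriv_succ, iteratedDeriv_succ]
      have hz : (t : ℂ) ∈ ball (0:ℂ) R := by
        rw [mem_ball_zero_iff, Complex.norm_real, Real.norm_eq_abs]; exact ht
      have h3 := ((h1 _ hz).differentiableAt (isOpen_ball.mem_nhds hz)).hasDerivAt.real_of_complex
      have h4 : HasDerivAt (iteratedDeriv j F) (deriv (iteratedDeriv j G) (t : ℂ)).re t := by
        refine h3.congr_of_eventuallyEq ?_
        have ho : IsOpen {s : ℝ | |s| < R} := isOpen_lt continuous_abs continuous_const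
        filter_upwards [ho.mem_nhds ht] with s hs
        exact h2 s hs
      exact h4.deriv

/-- Cauchy's estimate for the derivatives at the origin of a function bounded by `C ‖z‖` -/
theorem cauchy0 {G : ℂ → ℂ} {R C : ℝ} (hR : 0 < R) (hC : 0 ≤ C)
    (hG : DifferentiableOn ℂ G (ball 0 R)) (h : ∀ z ∈ ball (0:ℂ) R, ‖G z‖ ≤ C * ‖z‖) (j : ℕ) :
    ‖iteratedDeriv j G 0‖ ≤ j.factorial * (C * R) / (R / 2) ^ j := by
  refine Complex.norm_iteratedDeriv_le_of_forall_mem_sphere_norm_le j (by positivity : 0 < R / 2)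
    ?_ ?_
  · apply DifferentiableOn.diffContOnCl
    refine hG.mono ?_
    intro z hz
    have h1 : z ∈ closedBall (0:ℂ) (R / 2) := closure_ball_subset_closedBall hz
    rw [mem_closedBall_zero_iff] at h1
    rw [mem_ball_zero_iff]
    linarith
  · intro z hz
    rw [mem_sphere_zero_iff_norm] at hz
    have hz2 : z ∈ ball (0:ℂ) R := by rw [mem_ball_zero_iff, hz]; linarith
    refine (h z hz2).trans ?_
    rw [hz]
    apply mul_le_mul_of_nonneg_left _ hC
    linarith

/-- **all cumulants, uniformly** -/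
theorem cumulants_unif : ∃ κ : ℕ → ℕ → ℝ, ∀ j : ℕ, 1 ≤ j → ∃ K : ℝ, ∀ n : ℕ, 1 ≤ n →
    |κ n j - if j = 2 then 6 else 0| ≤ K / (2 * n + 1) ∧
    ∀ M : ℕ, |iteratedDeriv j (lmg n M) 0 - κ n j * ht n M| ≤ K := by
  obtain ⟨R, hR, g, hg⟩ := winding_logs
  obtain ⟨κ, hκ1, hκ2⟩ := cumulants
  refine ⟨κ, fun j hj => ?_⟩
  obtain ⟨K1, hK1⟩ := hκ2 j hj
  set K2 : ℝ := j.factorial * (1 / R * R) / (R / 2) ^ j with hK2
  have hK20 : 0 ≤ K2 := by positivity
  refine ⟨max K1 K2, fun n hn => ⟨?_, fun M => ?_⟩⟩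
  · refine (hK1 n).trans ?_
    have : (0:ℝ) ≤ 2 * n + 1 := by positivity
    exact div_le_div_of_nonneg_right (le_max_left _ _) this
  obtain ⟨a1, a2, -, a4, a5⟩ := hg n hn
  set c : ℕ → ℝ := fun M => iteratedDeriv j (lmg n M) 0 with hc
  have hadd : ∀ M M', |c (M + M') - c M - c M'| ≤ K2 := by
    intro M M'
    have e1 : ∀ M, c M = (iteratedDeriv j (g n M) 0).re := by
      intro M
      have h1 := (real_iter (a1 M) (F := lmg n M) (fun t ht => by rw [a4 M t ht]; simp) j).2 0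
        (by simpa using hR)
      simpa using h1
    have hcd : ∀ M, ContDiffAt ℂ j (g n M) 0 := fun M =>
      ((a1 M).contDiffOn isOpen_ball).contDiffAt (isOpen_ball.mem_nhds (mem_ball_self hR))
    have e2 : iteratedDeriv j (fun z => g n (M + M') z - g n M z - g n M' z) 0 =
        iteratedDeriv j (g n (M + M')) 0 - iteratedDeriv j (g n M) 0 -
          iteratedDeriv j (g n M') 0 := by
      rw [iteratedDeriv_fun_sub ((hcd _).sub (hcd _)) (hcd _),
        iteratedDeriv_fun_sub (hcd _) (hcd _)]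
    have h2 := cauchy0 hR (by positivity : 0 ≤ 1 / R) (((a1 (M + M')).sub (a1 M)).sub (a1 M'))
      (fun z hz => (a5 M M' z hz).trans (by
        rw [mem_ball_zero_iff] at hz
        have h0 := norm_nonneg z
        calc 1 / R ^ 2 * ‖z‖ ^ 2 = (1 / R ^ 2 * ‖z‖) * ‖z‖ := by ring
          _ ≤ (1 / R ^ 2 * ‖z‖) * R := mul_le_mul_of_nonneg_left hz.le (by positivity)
          _ = 1 / R * ‖z‖ := by field_simp)) j
    have h3 : iteratedDeriv j ((g n (M + M') - g n M) - g n M') 0 =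
        iteratedDeriv j (g n (M + M')) 0 - iteratedDeriv j (g n M) 0 -
          iteratedDeriv j (g n M') 0 := e2
    rw [e1, e1, e1, ← Complex.sub_re, ← Complex.sub_re]
    refine (Complex.abs_re_le_norm _).trans ?_
    rw [← h3]
    exact h2
  have hlim : Tendsto (fun M : ℕ => c M / M) atTop (𝓝 (κ n j * (2 * Real.pi / (2 * n + 1)))) := by
    refine ((hκ1 n j hj).mul_const (2 * Real.pi / (2 * n + 1))).congr' ?_
    filter_upwards [eventually_gt_atTop 0] with M hM
    have hM' : (M:ℝ) ≠ 0 := by exact_mod_cast hM.ne'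
    have hπ := Real.pi_ne_zero
    unfold CG.ht
    field_simp
    rfl
  have h3 := almost_add hadd hlim M
  have h4 : (M:ℝ) * (κ n j * (2 * Real.pi / (2 * n + 1))) = κ n j * ht n M := by
    unfold CG.ht; ring
  rw [h4] at h3
  exact h3.trans (le_max_right _ _)

end Pool.Agent.Zk36.UC
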