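import Pool.Agent.Zk36.UC.G

/-! The exponential rates as analytic functions, uniformly in the circumference. -/

set_option autoImplicit false

namespace Pool.Agent.Zk36.UC

open Finset H906K Pool.Agent.H974R3 Filter Topology Pool.Agent.Zk36.CG Pool.Agent.Zk36.UW

/-- power series of the rates -/
theorem coeffs : ∃ ρ : ℝ, 0 < ρ ∧ ∃ (b : ℕ → ℕ → ℝ) (u : ℕ → ℝ) (e : ℕ → ℝ), Summable u ∧
    (∀ n j, |b n j| * ρ ^ j ≤ u j) ∧ Tendsto e atTop (𝓝 0) ∧ (∀ n, 0 ≤ e n) ∧
    ∀ n : ℕ, 1 ≤ n → (∀ θ : ℝ, |θ| ≤ ρ →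
      (2 * n + 1 : ℝ) * rate n (θ / (2 * n + 1)) = ∑' j : ℕ, b n j * θ ^ j) ∧
      ∀ z : ℂ, ‖z‖ ≤ ρ → ‖∑' j : ℕ, (b n j : ℂ) * z ^ j - 3 * z ^ 2 / (2 * Real.pi)‖ ≤
        e n * ‖z‖ ^ 2 := by
  obtain ⟨K, hK, hb⟩ := exists_gb
  obtain ⟨K1, hK1, hgeo⟩ := value_geo
  set ρ : ℝ := 1 / (4000 * (1 + K)) with hρ
  have hρ0 : 0 < ρ := by positivity
  have hρ1 : ρ * (2000 * (1 + K)) < 1 := by
    rw [hρ]
    have : (1 / (4000 * (1 + K))) * (2000 * (1 + K)) = 1/2 := by
      have : (1 + K) ≠ 0 := by positivity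
      field_simp
      norm_num
    rw [this]; norm_num
  have hρ2 : 2000 * ρ < 1 := by
    have : 0 ≤ ρ * K := by positivity
    nlinarith
  choose L hL using exists_FE
  have hex : ∀ n : ℕ, ∃ d : FD, d.N = 2 * (n + 1) + 1 ∧
      ∀ j, PowerSeries.coeff j (lg (L (n + 1))) = (d.N : ℂ) ^ j * PowerSeries.coeff j (lg (d.E 0)) :=
    fun n => (hL (n + 1)).scale (by omega)
  choose d hd hs using hex
  have hN : Tendsto (fun n => ((d n).N : ℝ)) atTop atTop := by
    simp only [hd]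
    push_cast
    have h1 : Tendsto (fun n : ℕ => (n : ℝ)) atTop atTop := tendsto_natCast_atTop_atTop
    refine tendsto_atTop_mono (fun n => ?_) h1
    have : (0:ℝ) ≤ n := Nat.cast_nonneg n
    linarith
  have hNe : ∀ n : ℕ, (2 * ((n + 1 : ℕ) : ℝ) + 1) = ((d n).N : ℝ) := by
    intro n
    rw [hd]
    push_cast
    ring
  -- coefficients
  set a : ℕ → ℕ → ℝ := fun n j => (((d n).N : ℝ) * (sc (d n) j).re) / j with ha
  set a0 : ℕ → ℝ := fun j => (if j = 2 then 3 / Real.pi else 0 : ℝ) / j with ha0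
  have hab : ∀ n j, |a n j| ≤ K1 * 2000 ^ j := by
    intro n j
    have h1 := hgeo (d n) j
    have h2 : |(sc (d n) j).re| ≤ ‖PowerSeries.coeff j (lg ((d n).E 0))‖ := by
      refine (Complex.abs_re_le_norm _).trans ?_
      unfold sc
      rw [norm_mul, norm_pow, norm_inv, Complex.norm_I, inv_one, one_pow, one_mul]
    have hN0 : (0:ℝ) ≤ (d n).N := Nat.cast_nonneg _
    simp only [ha]
    rw [abs_div, abs_mul, abs_of_nonneg hN0, abs_of_nonneg (Nat.cast_nonneg j : (0:ℝ) ≤ j)]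
    rcases Nat.eq_zero_or_pos j with rfl | hj
    · simp
      exact hK1.le
    · have hj' : (1:ℝ) ≤ j := by exact_mod_cast hj
      calc ((d n).N : ℝ) * |(sc (d n) j).re| / j
          ≤ ((d n).N : ℝ) * |(sc (d n) j).re| / 1 := by gcongr
        _ ≤ ((d n).N : ℝ) * ‖PowerSeries.coeff j (lg ((d n).E 0))‖ := by
            rw [div_one]; gcongr
        _ ≤ K1 * 2000 ^ j := h1
  have hlim : ∀ j, Tendsto (fun n => a n j) atTop (𝓝 (a0 j)) := fun j => (sc_lim hN j).div_const _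
  have ha0b : ∀ j, |a0 j| ≤ K1 * 2000 ^ j := fun j =>
    le_of_tendsto (hlim j).abs (Eventually.of_forall fun n => hab n j)
  have key : ∀ (n : ℕ) (θ : ℝ), |θ| ≤ ρ →
      (2 * ((n + 1 : ℕ) : ℝ) + 1) * rate (n + 1) (θ / (2 * ((n + 1 : ℕ) : ℝ) + 1)) =
      ∑' j : ℕ, a n j * θ ^ j := by
    intro n θ hθ
    have hpos : (0:ℝ) < 2 * ((n + 1 : ℕ) : ℝ) + 1 := by positivity
    have hr : |θ / (2 * ((n + 1 : ℕ) : ℝ) + 1)| * rad K (n + 1) < 1 := by
      rw [abs_div, abs_of_pos hpos]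
      unfold rad
      have e : |θ| / (2 * ((n + 1 : ℕ) : ℝ) + 1) * (2000 * (2 * ((n + 1 : ℕ) : ℝ) + 1) * (1 + K)) =
          |θ| * (2000 * (1 + K)) := by
        field_simp
      rw [e]
      refine lt_of_le_of_lt ?_ hρ1
      exact mul_le_mul_of_nonneg_right hθ (by positivity)
    rw [(hL (n + 1)).rate_eq hK (hb (n + 1) _ (by omega) (hL (n + 1))) hr]
    unfold psi
    rw [← tsum_mul_left]
    refine tsum_congr fun j => ?_
    rw [sc_cf (hd n) (hs n), ← Complex.ofReal_pow, Complex.re_ofReal_mul, hNe, div_pow]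
    have hN0 : ((d n).N : ℝ) ≠ 0 := by rw [← hNe]; exact hpos.ne'
    simp only [ha]
    field_simp
  have hlim0 : ∀ z : ℂ, ∑' j : ℕ, (a0 j : ℂ) * z ^ j = 3 * z ^ 2 / (2 * Real.pi) := by
    intro z
    rw [tsum_eq_single 2]
    · simp only [ha0]
      rw [if_pos trivial]
      have : (Real.pi : ℂ) ≠ 0 := by exact_mod_cast Real.pi_ne_zero
      push_cast
      field_simp
    · intro j hj
      simp only [ha0]
      rw [if_neg hj, zero_div, Complex.ofReal_zero, zero_mul]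
  have hsum : Summable (fun j : ℕ => K1 * (2000 * ρ) ^ j) :=
    (summable_geometric_of_lt_one (by positivity) hρ2).mul_left K1
  have hs1 : ∀ (b : ℕ → ℝ), (∀ j, |b j| ≤ K1 * 2000 ^ j) → ∀ z : ℂ, ‖z‖ ≤ ρ →
      Summable (fun j => (b j : ℂ) * z ^ j) := by
    intro b hb' z hz
    apply Summable.of_norm
    refine Summable.of_nonneg_of_le (fun j => norm_nonneg _) (fun j => ?_) hsum
    rw [norm_mul, norm_pow, Complex.norm_real, Real.norm_eq_abs, mul_pow, ← mul_assoc]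
    exact mul_le_mul (hb' j) (pow_le_pow_left₀ (norm_nonneg _) hz j) (by positivity) (by positivity)
  -- the error
  set e : ℕ → ℝ := fun n => (∑' j : ℕ, |a n j - a0 j| * ρ ^ j) / ρ ^ 2 with he
  have hdb : ∀ n j, |a n j - a0 j| ≤ 2 * (K1 * 2000 ^ j) := fun n j => by
    have := abs_sub (a n j) (a0 j)
    linarith [hab n j, ha0b j]
  have hds : ∀ n, Summable (fun j : ℕ => |a n j - a0 j| * ρ ^ j) := by
    intro n
    refine Summable.of_nonneg_of_le (fun j => by positivity) (fun j => ?_) (hsum.mul_left 2)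
    rw [mul_pow]
    calc |a n j - a0 j| * ρ ^ j ≤ 2 * (K1 * 2000 ^ j) * ρ ^ j :=
          mul_le_mul_of_nonneg_right (hdb n j) (by positivity)
      _ = _ := by ring
  have helim : Tendsto e atTop (𝓝 0) := by
    have h1 : Tendsto (fun n => ∑' j : ℕ, |a n j - a0 j| * ρ ^ j) atTop (𝓝 (∑' _ : ℕ, (0:ℝ))) := by
      refine tendsto_tsum_of_dominated_convergence
        (bound := fun j : ℕ => 2 * (K1 * (2000 * ρ) ^ j))
        (hsum.mul_left 2) (fun j => ?_) ?_
      · have h2 : Tendsto (fun n => |a n j - a0 j| * ρ ^ j) atTop (𝓝 (|a0 j - a0 j| * ρ ^ j)) :=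
          (((hlim j).sub_const _).abs).mul_const _
        simpa using h2
      · filter_upwards with n j
        rw [Real.norm_eq_abs, abs_mul, abs_abs, abs_pow, abs_of_pos hρ0, mul_pow]
        calc |a n j - a0 j| * ρ ^ j ≤ 2 * (K1 * 2000 ^ j) * ρ ^ j :=
              mul_le_mul_of_nonneg_right (hdb n j) (by positivity)
          _ = _ := by ring
    rw [tsum_zero] at h1
    have h3 := h1.div_const (ρ ^ 2)
    rw [zero_div] at h3
    exact h3
  refine ⟨ρ, hρ0, fun n => a (n - 1), fun j => K1 * (2000 * ρ) ^ j, fun n => e (n - 1), hsum,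
    fun n j => ?_, helim.comp (tendsto_sub_atTop_nat 1), fun n => ?_, ?_⟩
  · show |a (n - 1) j| * ρ ^ j ≤ K1 * (2000 * ρ) ^ j
    rw [mul_pow, ← mul_assoc]
    exact mul_le_mul_of_nonneg_right (hab _ j) (by positivity)
  · simp only [he]
    exact div_nonneg (tsum_nonneg fun j => by positivity) (by positivity)
  intro n hn
  obtain ⟨m, rfl⟩ : ∃ m, n = m + 1 := ⟨n - 1, by omega⟩
  simp only [Nat.add_sub_cancel]
  refine ⟨key m, fun z hz => ?_⟩
  rw [← hlim0 z]
  rw [← (hs1 (a m) (hab m) z hz).tsum_sub (hs1 a0 ha0b z hz)]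
  have hz2 : ∀ j, j < 2 → a m j - a0 j = 0 := by
    intro j hj
    simp only [ha, ha0]
    interval_cases j
    · simp
    · rw [sc_one]; simp
  have hterm : ∀ j, ‖(a m j : ℂ) * z ^ j - (a0 j : ℂ) * z ^ j‖ ≤
      |a m j - a0 j| * ρ ^ j * (‖z‖ ^ 2 / ρ ^ 2) := by
    intro j
    have e1 : (a m j : ℂ) * z ^ j - (a0 j : ℂ) * z ^ j = ((a m j - a0 j : ℝ) : ℂ) * z ^ j := by
      push_cast; ring
    rw [e1, norm_mul, norm_pow, Complex.norm_real, Real.norm_eq_abs]
    rcases Nat.lt_or_ge j 2 with hj | hj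
    · rw [hz2 j hj]
      simp
    · obtain ⟨i, rfl⟩ := Nat.exists_eq_add_of_le hj
      have h1 : ‖z‖ ^ (2 + i) ≤ ρ ^ (2 + i) * (‖z‖ ^ 2 / ρ ^ 2) := by
        rw [pow_add, pow_add]
        have h2 : ‖z‖ ^ i ≤ ρ ^ i := pow_le_pow_left₀ (norm_nonneg _) hz i
        calc ‖z‖ ^ 2 * ‖z‖ ^ i ≤ ‖z‖ ^ 2 * ρ ^ i := mul_le_mul_of_nonneg_left h2 (sq_nonneg _)
          _ = ρ ^ 2 * ρ ^ i * (‖z‖ ^ 2 / ρ ^ 2) := by field_simp
      calc |a m (2 + i) - a0 (2 + i)| * ‖z‖ ^ (2 + i)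
          ≤ |a m (2 + i) - a0 (2 + i)| * (ρ ^ (2 + i) * (‖z‖ ^ 2 / ρ ^ 2)) :=
            mul_le_mul_of_nonneg_left h1 (abs_nonneg _)
        _ = _ := by ring
  have hsd : Summable (fun j => ‖(a m j : ℂ) * z ^ j - (a0 j : ℂ) * z ^ j‖) :=
    Summable.of_nonneg_of_le (fun j => norm_nonneg _) hterm ((hds m).mul_right _)
  calc ‖∑' j, ((a m j : ℂ) * z ^ j - (a0 j : ℂ) * z ^ j)‖
      ≤ ∑' j, ‖(a m j : ℂ) * z ^ j - (a0 j : ℂ) * z ^ j‖ := norm_tsum_le_tsum_norm hsd
    _ ≤ ∑' j, |a m j - a0 j| * ρ ^ j * (‖z‖ ^ 2 / ρ ^ 2) :=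
        hsd.tsum_le_tsum hterm ((hds m).mul_right _)
    _ = _ := by rw [tsum_mul_right]; simp only [he]; ring

/-- **complex exponential moments, uniformly** -/
theorem complex_unif : ∃ R : ℝ, 0 < R ∧ ∃ K : ℝ, 0 ≤ K ∧ ∃ ε : ℕ → ℝ, Tendsto ε atTop (𝓝 0) ∧
    (∀ n, 0 ≤ ε n) ∧ ∀ n : ℕ, 1 ≤ n → ∀ (M : ℕ) (z : ℂ), ‖z‖ < R → ∃ w : ℂ,
      ‖w‖ ≤ (K + ε n * ht n M) * ‖z‖ ^ 2 ∧
        mgc n M z = Complex.exp (3 * z ^ 2 * (ht n M : ℂ) + w) := by
  obtain ⟨R0, hR0, g, hg⟩ := winding_logs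
  obtain ⟨ρ, hρ, b, u, e, hu, hbu, he, he0, hbe⟩ := coeffs
  have hπ := Real.pi_pos
  set R := min R0 (ρ / (2 * Real.pi)) with hRd
  have hR : 0 < R := by positivity
  have hsub : Metric.ball (0:ℂ) R ⊆ Metric.ball 0 R0 := Metric.ball_subset_ball (min_le_left _ _)
  have hz1 : ∀ z ∈ Metric.ball (0:ℂ) R, ‖2 * (Real.pi : ℂ) * z‖ < ρ := by
    intro z hz
    rw [mem_ball_zero_iff] at hz
    have h1 : ‖z‖ < ρ / (2 * Real.pi) := hz.trans_le (min_le_right _ _)
    rw [lt_div_iff₀ (by positivity)] at h1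
    rw [norm_mul, norm_mul, Complex.norm_real, Real.norm_eq_abs, abs_of_pos hπ]
    simp only [Complex.norm_ofNat]
    linarith
  refine ⟨R, hR, 1 / R0 ^ 2, by positivity, fun n => 2 * Real.pi * e n, ?_, fun n => by
    have := he0 n; positivity, fun n hn M z hz => ?_⟩
  · have := he.const_mul (2 * Real.pi)
    simpa using this
  obtain ⟨a1, a2, a3, a4, a5⟩ := hg n hn
  obtain ⟨b1, b2⟩ := hbe n hn
  -- the limit of the logarithms
  have hlex : ∀ z : ℂ, ∃ l : ℂ, z ∈ Metric.ball (0:ℂ) R0 →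
      ∀ M : ℕ, ‖g n M z - M * l‖ ≤ 1 / R0 ^ 2 * ‖z‖ ^ 2 := by
    intro z
    by_cases hz : z ∈ Metric.ball (0:ℂ) R0
    · obtain ⟨l, hl⟩ := almost_addc (a := fun M => g n M z) (C := 1 / R0 ^ 2 * ‖z‖ ^ 2)
        (fun M M' => a5 M M' z hz)
      exact ⟨l, fun _ => hl⟩
    · exact ⟨0, fun h => absurd h hz⟩
  choose l hl using hlex
  have hlt : ∀ z ∈ Metric.ball (0:ℂ) R0, Tendsto (fun M : ℕ => g n M z / M) atTop (𝓝 (l z)) := by
    intro z hz
    rw [tendsto_iff_norm_sub_tendsto_zero]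
    have h1 : Tendsto (fun M : ℕ => (1 / R0 ^ 2 * ‖z‖ ^ 2) / (M : ℝ)) atTop (𝓝 0) :=
      tendsto_const_div_atTop_nhds_zero_nat _
    refine squeeze_zero' (Eventually.of_forall fun _ => norm_nonneg _) ?_ h1
    filter_upwards [eventually_gt_atTop 0] with M hM
    have hM' : (0:ℝ) < M := by exact_mod_cast hM
    have hMc : (M:ℂ) ≠ 0 := by exact_mod_cast hM.ne'
    have e1 : g n M z / M - l z = (g n M z - M * l z) / M := by field_simp
    rw [e1, norm_div, Complex.norm_natCast]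
    exact div_le_div_of_nonneg_right (hl z hz M) hM'.le
  have hld : DifferentiableOn ℂ l (Metric.ball 0 R0) := by
    have hU : TendstoUniformlyOn (fun (M : ℕ) z => g n (M + 1) z / ((M + 1 : ℕ) : ℂ)) l atTop
        (Metric.ball 0 R0) := by
      rw [Metric.tendstoUniformlyOn_iff]
      intro ε hε
      have h1 : Tendsto (fun M : ℕ => 1 / ((M:ℝ) + 1)) atTop (𝓝 0) :=
        tendsto_one_div_add_atTop_nhds_zero_nat
      filter_upwards [h1.eventually_lt_const hε] with M hM z hz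
      have hMc : ((M + 1 : ℕ) : ℂ) ≠ 0 := by exact_mod_cast (Nat.succ_ne_zero M)
      rw [dist_comm, dist_eq_norm]
      have e1 : g n (M + 1) z / ((M + 1 : ℕ) : ℂ) - l z =
          (g n (M + 1) z - ((M + 1 : ℕ) : ℂ) * l z) / ((M + 1 : ℕ) : ℂ) := by field_simp
      rw [e1, norm_div, Complex.norm_natCast]
      have h2 := hl z hz (M + 1)
      have h3 : 1 / R0 ^ 2 * ‖z‖ ^ 2 ≤ 1 := by
        rw [mem_ball_zero_iff] at hz
        rw [one_div, inv_mul_le_iff₀ (by positivity), mul_one]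
        exact pow_le_pow_left₀ (norm_nonneg _) hz.le 2
      calc ‖g n (M + 1) z - ((M + 1 : ℕ) : ℂ) * l z‖ / ((M + 1 : ℕ) : ℝ)
          ≤ 1 / ((M + 1 : ℕ) : ℝ) := div_le_div_of_nonneg_right (h2.trans h3) (by positivity)
        _ < ε := by push_cast; exact hM
    exact hU.tendstoLocallyUniformlyOn.differentiableOn
      (Eventually.of_forall fun M => (a1 (M + 1)).div_const _) Metric.isOpen_ball
  -- the power series
  set P : ℂ → ℂ := fun z => ∑' j : ℕ, (b n j : ℂ) * (2 * (Real.pi : ℂ) * z) ^ j with hP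
  have hPd : DifferentiableOn ℂ P (Metric.ball 0 R) := by
    refine Complex.differentiableOn_tsum_of_summable_norm hu (fun j => ?_) Metric.isOpen_ball ?_
    · exact (((differentiable_id.const_mul _).pow j).const_mul _).differentiableOn
    · intro j z hz
      rw [norm_mul, norm_pow, Complex.norm_real, Real.norm_eq_abs]
      refine le_trans ?_ (hbu n j)
      exact mul_le_mul_of_nonneg_left (pow_le_pow_left₀ (norm_nonneg _) (hz1 z hz).le j)
        (abs_nonneg _)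
  set N : ℂ := 2 * (n:ℂ) + 1 with hNd
  have hNr : N = ((2 * (n:ℝ) + 1 : ℝ) : ℂ) := by rw [hNd]; push_cast; ring
  have hN0 : N ≠ 0 := by
    rw [hNr]
    exact_mod_cast (by positivity : (0:ℝ) < 2 * (n:ℝ) + 1).ne'
  -- agreement on the real line
  have hreal : ∀ t : ℝ, |t| < R → l (t : ℂ) = P (t : ℂ) / N := by
    intro t ht
    have htb : (t : ℂ) ∈ Metric.ball (0:ℂ) R := by
      rw [mem_ball_zero_iff, Complex.norm_real, Real.norm_eq_abs]; exact ht
    have h1 := hlt _ (hsub htb)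
    have h2 : Tendsto (fun M : ℕ => lmg n M t / M) atTop
        (𝓝 ((2 * n + 1) / (2 * Real.pi) * rate n (2 * Real.pi * t / (2 * n + 1)) *
          (2 * Real.pi / (2 * n + 1)))) := by
      refine ((lmg_lim n t).mul_const (2 * Real.pi / (2 * n + 1))).congr' ?_
      filter_upwards [eventually_gt_atTop 0] with M hM
      have hM' : (M:ℝ) ≠ 0 := by exact_mod_cast hM.ne'
      unfold CG.ht
      field_simp
    have h3 := (Complex.continuous_ofReal.tendsto _).comp h2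
    have h4 : (fun M : ℕ => g n M (t : ℂ) / M) = (fun M : ℕ => ((lmg n M t / M : ℝ) : ℂ)) := by
      funext M
      rw [a4 M t (ht.trans_le (min_le_left _ _))]
      push_cast
      rfl
    rw [h4] at h1
    have h5 := tendsto_nhds_unique h1 h3
    have h6 : |2 * Real.pi * t| ≤ ρ := by
      have := (hz1 _ htb).le
      rw [← Real.norm_eq_abs, ← Complex.norm_real]
      push_cast
      exact this
    have h7 := b1 _ h6
    have h8 : ((∑' j : ℕ, b n j * (2 * Real.pi * t) ^ j : ℝ) : ℂ) = P (t : ℂ) := by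
      rw [hP, Complex.ofReal_tsum]
      push_cast
      rfl
    rw [h5, ← h8, ← h7, hNr]
    rw [← Complex.ofReal_div]
    congr 1
    have : (2 * (n:ℝ) + 1) ≠ 0 := by positivity
    field_simp
  have hid : Set.EqOn l (fun z => P z / N) (Metric.ball 0 R) := by
    apply ((hld.mono hsub).analyticOnNhd Metric.isOpen_ball).eqOn_of_preconnected_of_frequently_eq
      ((hPd.div_const N).analyticOnNhd Metric.isOpen_ball) (convex_ball (0:ℂ) R).isPreconnected
      (Metric.mem_ball_self hR)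
    have h1 : Tendsto (fun k : ℕ => (((R / 2) / ((k:ℝ) + 1) : ℝ) : ℂ)) atTop (𝓝[≠] 0) := by
      rw [tendsto_nhdsWithin_iff]
      refine ⟨?_, Eventually.of_forall fun k => ?_⟩
      · have h2 : Tendsto (fun k : ℕ => (R / 2) * (1 / ((k:ℝ) + 1))) atTop (𝓝 ((R / 2) * 0)) :=
          tendsto_one_div_add_atTop_nhds_zero_nat.const_mul _
        rw [mul_zero] at h2
        have h3 := (Complex.continuous_ofReal.tendsto _).comp h2
        rw [Complex.ofReal_zero] at h3
        refine h3.congr fun k => ?_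
        simp only [Function.comp]
        congr 1
        ring
      · rw [Set.mem_compl_iff, Set.mem_singleton_iff]
        have : (0:ℝ) < (R / 2) / ((k:ℝ) + 1) := by positivity
        exact_mod_cast this.ne'
    refine h1.frequently (Eventually.frequently (Eventually.of_forall fun k => ?_))
    apply hreal
    have h2 : (0:ℝ) < (R / 2) / ((k:ℝ) + 1) := by positivity
    rw [abs_of_pos h2, div_lt_iff₀ (by positivity)]
    have : (0:ℝ) ≤ k := Nat.cast_nonneg k
    nlinarith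
  -- conclusion
  have hzb : z ∈ Metric.ball (0:ℂ) R := by rwa [mem_ball_zero_iff]
  refine ⟨g n M z - 3 * z ^ 2 * (ht n M : ℂ), ?_, ?_⟩
  · have h1 := hl z (hsub hzb) M
    have h2 := b2 _ (hz1 z hzb).le
    have hpc : (Real.pi : ℂ) ≠ 0 := by exact_mod_cast Real.pi_ne_zero
    have e1 : g n M z - 3 * z ^ 2 * (ht n M : ℂ) = (g n M z - M * l z) +
        (ht n M : ℂ) / (2 * Real.pi) * (P z - 3 * (2 * (Real.pi : ℂ) * z) ^ 2 / (2 * Real.pi)) := by
      rw [hid hzb]
      unfold CG.ht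
      push_cast
      rw [← hNd]
      field_simp
      ring
    have hh : 0 ≤ ht n M := by unfold CG.ht; positivity
    rw [e1, add_mul]
    refine (norm_add_le _ _).trans (add_le_add h1 ?_)
    rw [norm_mul, norm_div, Complex.norm_real, Real.norm_eq_abs, abs_of_nonneg hh, norm_mul,
      Complex.norm_real, Real.norm_eq_abs, abs_of_pos hπ]
    simp only [Complex.norm_ofNat]
    have h3 : ‖2 * (Real.pi : ℂ) * z‖ = 2 * Real.pi * ‖z‖ := by
      rw [norm_mul, norm_mul, Complex.norm_real, Real.norm_eq_abs, abs_of_pos hπ]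
      simp only [Complex.norm_ofNat]
    rw [h3] at h2
    calc ht n M / (2 * Real.pi) * ‖P z - 3 * (2 * (Real.pi : ℂ) * z) ^ 2 / (2 * Real.pi)‖
        ≤ ht n M / (2 * Real.pi) * (e n * (2 * Real.pi * ‖z‖) ^ 2) :=
          mul_le_mul_of_nonneg_left h2 (by positivity)
      _ = _ := by field_simp
  · rw [add_sub_cancel, a3 M z (hsub hzb)]

end Pool.Agent.Zk36.UC
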