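import Pool.Agent.Zk36.UC.B

/-! The renewal induction for complex parameters. -/

set_option autoImplicit false
set_option linter.unusedSectionVars false

namespace Pool.Agent.Zk36.UC

open Finset Pool.Agent.Zk36.UW

variable {β : Type} [Fintype β] [Nonempty β]

variable {N : ℕ} {gi X : List β → ℝ} {c0 θ B : ℝ}

/-- the constants approximating the partition functions -/
noncomputable def Mc (N : ℕ) (gi X : List β → ℝ) (t : ℂ) (r : ℕ) : ℕ → ℂ
  | 0 => 1
  | k + 1 => ((1 - Av N gi : ℝ) : ℂ) * Mc N gi X t r k +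
      Ac N (fun g => (gi g : ℂ) * Yc N X t r k g)

theorem Mc_succ (N : ℕ) (gi X : List β → ℝ) (t : ℂ) (r k : ℕ) : Mc N gi X t r (k+1) =
    ((1 - Av N gi : ℝ) : ℂ) * Mc N gi X t r k + Ac N (fun g => (gi g : ℂ) * Yc N X t r k g) := rfl

theorem Mc_eq (N : ℕ) (gi X : List β → ℝ) (t : ℂ) (r k : ℕ) : Mc N gi X t r k =
    ∑ s ∈ range k, ((1 - Av N gi : ℝ) : ℂ)^s * Ac N (fun g => (gi g : ℂ) *
      Yc N X t r (k-1-s) g) + ((1 - Av N gi : ℝ) : ℂ)^k := by
  induction k with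
  | zero => rw [Finset.range_zero, Finset.sum_empty, pow_zero, zero_add]; rfl
  | succ k ih =>
    rw [Mc_succ, ih, Finset.sum_range_succ']
    have h1 : ∀ s ∈ range k, ((1 - Av N gi : ℝ) : ℂ)^(s+1) *
        Ac N (fun g => (gi g : ℂ) * Yc N X t r (k+1-1-(s+1)) g) =
        ((1 - Av N gi : ℝ) : ℂ) * (((1 - Av N gi : ℝ) : ℂ)^s *
          Ac N (fun g => (gi g : ℂ) * Yc N X t r (k-1-s) g)) := by
      intro s _
      rw [show k + 1 - 1 - (s + 1) = k - 1 - s by omega, pow_succ]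
      ring
    rw [Finset.sum_congr rfl h1, ← Finset.mul_sum, show k + 1 - 1 - 0 = k by omega, pow_zero,
      one_mul, pow_succ]
    ring

theorem le_sqrt_mul {x a b : ℝ} (hx : 0 ≤ x) (ha : 0 ≤ a) (h : x^2 ≤ a * b) : x ≤ √a * √b := by
  rw [← Real.sqrt_mul ha, ← Real.sqrt_sq hx]
  exact Real.sqrt_le_sqrt h

theorem cs_gc (H : Hyp N gi X c0 θ B) (f h : List β → ℂ) :
    ‖Ac N (fun g => (gi g : ℂ) * (f g * h g))‖ ≤
      √(Av N (fun g => gi g * ‖f g‖ ^ 2)) * √(Av N (fun g => gi g * ‖h g‖ ^ 2)) := by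
  apply le_sqrt_mul (norm_nonneg _) (Av_nonneg fun g _ => mul_nonneg (H.gi0 g) (sq_nonneg _))
  have h1 := Ac_cs N (fun g => (gi g : ℂ) * f g) (fun g => (gi g : ℂ) * h g)
  have e1 : Ac N (fun g => (gi g : ℂ) * f g * ((gi g : ℂ) * h g)) =
      Ac N (fun g => (gi g : ℂ) * (f g * h g)) :=
    Ac_congr fun g _ => by
      have h2 : ((gi g : ℂ)) ^ 2 = (gi g : ℂ) := by exact_mod_cast H.gisq g
      calc (gi g : ℂ) * f g * ((gi g : ℂ) * h g) = (gi g : ℂ) ^ 2 * (f g * h g) := by ring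
        _ = _ := by rw [h2]
  have e2 : ∀ f : List β → ℂ, Av N (fun g => ‖(gi g : ℂ) * f g‖^2) =
      Av N (fun g => gi g * ‖f g‖ ^ 2) :=
    fun f => Av_congr fun g _ => by
      rw [norm_mul, mul_pow, Complex.norm_real, Real.norm_eq_abs, sq_abs, H.gisq g]
  rw [e1, e2, e2] at h1
  exact h1

theorem norm_q (H : Hyp N gi X c0 θ B) (s : ℕ) :
    ‖((1 - Av N gi : ℝ) : ℂ)^s‖ = (1 - Av N gi)^s := by
  rw [norm_pow, Complex.norm_real, Real.norm_eq_abs, abs_of_nonneg (by linarith [H.p1])]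

theorem ptwc (H : Hyp N gi X c0 θ B) (t : ℂ) (r k : ℕ) {σ : ℝ} (hσ : 1 ≤ σ)
    (hM : 0 < ‖Mc N gi X t r k‖)
    (hY : ∀ j < k, √(Av N (fun g => gi g * ‖Yc N X t r j g‖ ^ 2)) ≤
      2 * σ^(k-j) * ‖Mc N gi X t r k‖)
    (h1 : 1 ≤ σ^k * ‖Mc N gi X t r k‖) (c : List β) (z : ℝ) :
    ‖ex t (-z) * Yc N X t r k c - Mc N gi X t r k‖ ≤
      ‖Mc N gi X t r k‖ * ∑ s ∈ range (k+1), 2 * σ^(s+1) * √(uc N gi X t r k s c z) := by
  have hσ0 : 0 < σ := by linarith
  have e0 : ex t (-z) * Yc N X t r k c - Mc N gi X t r k =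
      ∑ s ∈ range k, Ac N (fun g => (gi g : ℂ) * ((kerc N gi X t s c z g -
        ((1 - Av N gi : ℝ) : ℂ)^s) * Yc N X t r (k-1-s) g)) +
        (lasc N gi X t r k c z - ((1 - Av N gi : ℝ) : ℂ)^k) := by
    rw [renewalc H t r k c z, Mc_eq]
    have h2 : ∀ s ∈ range k, Ac N (fun g => (gi g : ℂ) * ((kerc N gi X t s c z g -
        ((1 - Av N gi : ℝ) : ℂ)^s) *
        Yc N X t r (k-1-s) g)) = Ac N (fun g => (gi g : ℂ) * (kerc N gi X t s c z g *
        Yc N X t r (k-1-s) g)) - ((1 - Av N gi : ℝ) : ℂ)^s *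
        Ac N (fun g => (gi g : ℂ) * Yc N X t r (k-1-s) g) := by
      intro s _
      rw [← Ac_mul, ← Ac_sub]
      exact Ac_congr fun g _ => by ring
    rw [Finset.sum_congr rfl h2, Finset.sum_sub_distrib]
    ring
  rw [e0, Finset.sum_range_succ, mul_add, Finset.mul_sum]
  refine (norm_add_le _ _).trans (add_le_add ?_ ?_)
  · refine (norm_sum_le _ _).trans (Finset.sum_le_sum fun s hs => ?_)
    rw [Finset.mem_range] at hs
    refine (cs_gc H _ _).trans ?_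
    have h3 := hY (k-1-s) (by omega)
    rw [show k - (k-1-s) = s+1 by omega] at h3
    have h4 : uc N gi X t r k s c z = qc N gi X t s c z := by
      unfold uc; rw [if_neg (by omega)]
    rw [h4]
    calc √(Av N (fun g => gi g * ‖kerc N gi X t s c z g - ((1 - Av N gi : ℝ) : ℂ)^s‖^2)) *
          √(Av N (fun g => gi g * ‖Yc N X t r (k-1-s) g‖ ^ 2))
        ≤ √(qc N gi X t s c z) * (2 * σ^(s+1) * ‖Mc N gi X t r k‖) :=
          mul_le_mul_of_nonneg_left h3 (Real.sqrt_nonneg _)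
      _ = _ := by ring
  · have h4 : uc N gi X t r k k c z = bc N gi X t r k c z := by
      unfold uc; rw [if_pos rfl]
    rw [h4]
    unfold bc
    rw [Real.sqrt_sq (norm_nonneg _)]
    have h5 : 1 ≤ ‖Mc N gi X t r k‖ * (2 * σ^(k+1)) := by
      have h6 : σ^k ≤ σ^(k+1) := pow_le_pow_right₀ hσ (by omega)
      have h7 : σ^k * ‖Mc N gi X t r k‖ ≤ σ^(k+1) * ‖Mc N gi X t r k‖ :=
        mul_le_mul_of_nonneg_right h6 hM.le
      nlinarith [mul_pos (pow_pos hσ0 (k+1)) hM]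
    calc ‖lasc N gi X t r k c z - ((1 - Av N gi : ℝ) : ℂ)^k‖
        ≤ (‖Mc N gi X t r k‖ * (2 * σ^(k+1))) *
            ‖lasc N gi X t r k c z - ((1 - Av N gi : ℝ) : ℂ)^k‖ :=
          le_mul_of_one_le_left (norm_nonneg _) h5
      _ = _ := by ring

/-- the squared error bound -/
noncomputable def Rc (N : ℕ) (gi X : List β → ℝ) (t : ℂ) (r : ℕ) (σ ρ : ℝ) (k : ℕ) (c : List β)
    (z : ℝ) : ℝ :=
  2 * σ / (1 - σ * ρ) * ∑ s ∈ range (k+1), 2 * σ^(s+1) / ρ^s * uc N gi X t r k s c z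

theorem Rc_avg (H : Hyp N gi X c0 θ B) (hθ : 0 < θ) (hB : 1 ≤ B) {σ ρ : ℝ} (hσ : 1 < σ)
    (hρ0 : 0 < ρ) (hσρ : σ * ρ < 1) (hρ : (1 - c0) * B ≤ ρ^2)
    {t : ℂ} (ht : ‖t‖ ≤ θ / 12) {r : ℕ} (hr : r ≤ N) (k : ℕ) (L m : ℕ)
    (hL : L ≤ m * N) (ζ : List β → ℝ) (hζ : Av L (fun c => Real.exp (θ * |ζ c|)) ≤ B) :
    Av L (fun c => Rc N gi X t r σ ρ k c (ζ c)) ≤
      (2 * σ / (1 - σ * ρ))^2 * (216 * (‖t‖/θ)^2 * B^(m+1)) := by
  unfold Rc
  rw [Av_mul, Av_sum]
  have h0 : 0 < 1 - σ * ρ := by linarith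
  have hσ0 : 0 < σ := by linarith
  rw [pow_two, mul_assoc]
  apply mul_le_mul_of_nonneg_left _ (by positivity)
  have h1 : ∀ s ∈ range (k+1), Av L (fun c => 2 * σ^(s+1) / ρ^s * uc N gi X t r k s c (ζ c)) ≤
      (2 * σ^(s+1) * ρ^s) * (216 * (‖t‖/θ)^2 * B^(m+1)) := by
    intro s hs
    rw [Finset.mem_range] at hs
    rw [Av_mul]
    have h2 := uc_avg H hθ hB hρ ht hr k s (by omega) L m hL ζ hζ
    calc 2 * σ^(s+1) / ρ^s * Av L (fun c => uc N gi X t r k s c (ζ c))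
        ≤ 2 * σ^(s+1) / ρ^s * (216 * (‖t‖/θ)^2 * B^(m+1) * (ρ^s)^2) :=
          mul_le_mul_of_nonneg_left h2 (by positivity)
      _ = _ := by field_simp
  refine (Finset.sum_le_sum h1).trans ?_
  rw [← Finset.sum_mul]
  apply mul_le_mul_of_nonneg_right _ (by positivity)
  have h2 : ∑ s ∈ range (k+1), 2 * σ^(s+1) * ρ^s = 2 * σ * ∑ s ∈ range (k+1), (σ * ρ)^s := by
    rw [Finset.mul_sum]
    exact Finset.sum_congr rfl fun s _ => by rw [mul_pow, pow_succ]; ring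
  rw [h2, div_eq_mul_inv]
  apply mul_le_mul_of_nonneg_left _ (by positivity)
  have h3 := geom_sum_eq (x := σ * ρ) (by linarith : σ * ρ ≠ 1) (k+1)
  have hx0 : 0 ≤ σ * ρ := by positivity
  rw [h3, div_eq_mul_inv, show (σ * ρ)^(k+1) - 1 = -(1 - (σ * ρ)^(k+1)) by ring,
    show σ * ρ - 1 = -(1 - σ * ρ) by ring, inv_neg, neg_mul_neg]
  have h4 : 1 - (σ * ρ)^(k+1) ≤ 1 := by linarith [pow_nonneg hx0 (k+1)]
  have h5 : 0 < (1 - σ * ρ)⁻¹ := inv_pos.2 (by linarith)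
  nlinarith

theorem ptwc_sq (H : Hyp N gi X c0 θ B) (t : ℂ) (r k : ℕ) {σ ρ : ℝ} (hσ : 1 < σ)
    (hρ0 : 0 < ρ) (hσρ : σ * ρ < 1) (hM : 0 < ‖Mc N gi X t r k‖)
    (hY : ∀ j < k, √(Av N (fun g => gi g * ‖Yc N X t r j g‖ ^ 2)) ≤
      2 * σ^(k-j) * ‖Mc N gi X t r k‖)
    (h1 : 1 ≤ σ^k * ‖Mc N gi X t r k‖) (c : List β) (z : ℝ) :
    ‖ex t (-z) * Yc N X t r k c - Mc N gi X t r k‖^2 ≤
      ‖Mc N gi X t r k‖ ^ 2 * Rc N gi X t r σ ρ k c z := by
  have h2 := ptwc H t r k hσ.le hM hY h1 c z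
  have h3 := wcs hσ hρ0 hσρ (fun s => uc N gi X t r k s c z) (fun s => uc_nonneg H t r k s c z) k
  refine (pow_le_pow_left₀ (norm_nonneg _) h2 2).trans ?_
  rw [mul_pow]
  exact mul_le_mul_of_nonneg_left h3 (sq_nonneg _)

theorem main_indc (H : Hyp N gi X c0 θ B) {σ ρ ε : ℝ} {t : ℂ} (P : Par c0 θ B σ ρ ε ‖t‖)
    {r : ℕ} (hr : r ≤ N) : ∀ k : ℕ, 0 < ‖Mc N gi X t r k‖ ∧
      (∀ j < k, ‖Mc N gi X t r j‖ ≤ σ^(k-j) * ‖Mc N gi X t r k‖) ∧
      (∀ j < k, √(Av N (fun g => gi g * ‖Yc N X t r j g‖ ^ 2)) ≤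
        2 * σ^(k-j) * ‖Mc N gi X t r k‖) ∧
      1 ≤ σ^k * ‖Mc N gi X t r k‖ ∧
      Av N (fun g => gi g * ‖Yc N X t r k g - Mc N gi X t r k‖^2) ≤
        (ε * ‖Mc N gi X t r k‖)^2 := by
  intro k
  have hσ0 : 0 < σ := by linarith [P.hσ]
  have ht : ‖t‖ ≤ θ / 12 := by
    have := P.ht
    rwa [abs_of_nonneg (norm_nonneg t)] at this
  induction k using Nat.strong_induction_on with
  | _ k ih =>
    -- one step of the constants
    have hstep : ∀ j < k, 0 < ‖Mc N gi X t r (j+1)‖ ∧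
        ‖Mc N gi X t r j‖ ≤ σ * ‖Mc N gi X t r (j+1)‖ := by
      intro j hj
      obtain ⟨a1, -, -, -, a5⟩ := ih j hj
      have h1 : ‖Ac N (fun g => (gi g : ℂ) * (1 * (Yc N X t r j g - Mc N gi X t r j)))‖ ≤
          ε * ‖Mc N gi X t r j‖ := by
        refine (cs_gc H (fun _ => 1) _).trans ?_
        have h2 : √(Av N (fun g => gi g * ‖(1:ℂ)‖^2)) ≤ 1 := by
          rw [Real.sqrt_le_one]
          simp only [norm_one, one_pow, mul_one]
          exact H.p1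
        have h3 : √(Av N (fun g => gi g * ‖Yc N X t r j g - Mc N gi X t r j‖^2)) ≤
            ε * ‖Mc N gi X t r j‖ := by
          rw [← Real.sqrt_sq (mul_nonneg P.hε0 a1.le)]
          exact Real.sqrt_le_sqrt a5
        calc _ ≤ 1 * (ε * ‖Mc N gi X t r j‖) := mul_le_mul h2 h3 (Real.sqrt_nonneg _) zero_le_one
          _ = _ := one_mul _
      have h4 : Mc N gi X t r (j+1) - Mc N gi X t r j =
          Ac N (fun g => (gi g : ℂ) * (1 * (Yc N X t r j g - Mc N gi X t r j))) := by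
        have h5 : Ac N (fun g => (gi g : ℂ) * (1 * (Yc N X t r j g - Mc N gi X t r j))) =
            Ac N (fun g => (gi g : ℂ) * Yc N X t r j g) -
              Ac N (fun g => (gi g : ℂ)) * Mc N gi X t r j := by
          rw [← Ac_mul_right, ← Ac_sub]
          exact Ac_congr fun g _ => by ring
        rw [h5, Ac_real, Mc_succ]
        push_cast
        ring
      rw [← h4] at h1
      have h5 : (1 - ε) * ‖Mc N gi X t r j‖ ≤ ‖Mc N gi X t r (j+1)‖ := by
        have := norm_sub_norm_le (Mc N gi X t r j) (Mc N gi X t r (j+1))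
        rw [norm_sub_rev] at this
        linarith
      have hε1 : 0 < 1 - ε := by
        by_contra hc
        have := P.hε1
        nlinarith
      refine ⟨lt_of_lt_of_le (mul_pos hε1 a1) h5, ?_⟩
      calc ‖Mc N gi X t r j‖ = 1 * ‖Mc N gi X t r j‖ := (one_mul _).symm
        _ ≤ (σ * (1 - ε)) * ‖Mc N gi X t r j‖ := mul_le_mul_of_nonneg_right P.hε1 a1.le
        _ = σ * ((1 - ε) * ‖Mc N gi X t r j‖) := by ring
        _ ≤ _ := mul_le_mul_of_nonneg_left h5 hσ0.le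
    have hpos : 0 < ‖Mc N gi X t r k‖ := by
      cases k with
      | zero =>
        have : Mc N gi X t r 0 = 1 := rfl
        rw [this, norm_one]
        exact zero_lt_one
      | succ k => exact (hstep k (by omega)).1
    have hle : ∀ d j, j + d = k → ‖Mc N gi X t r j‖ ≤ σ^d * ‖Mc N gi X t r k‖ := by
      intro d
      induction d with
      | zero => intro j hj; rw [pow_zero, one_mul, show j = k by omega]
      | succ d ihd =>
        intro j hj
        have h1 := (hstep j (by omega)).2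
        have h2 := ihd (j+1) (by omega)
        calc ‖Mc N gi X t r j‖ ≤ σ * ‖Mc N gi X t r (j+1)‖ := h1
          _ ≤ σ * (σ^d * ‖Mc N gi X t r k‖) := mul_le_mul_of_nonneg_left h2 hσ0.le
          _ = _ := by rw [pow_succ]; ring
    have hM : ∀ j < k, ‖Mc N gi X t r j‖ ≤ σ^(k-j) * ‖Mc N gi X t r k‖ :=
      fun j hj => hle (k-j) j (by omega)
    have hY : ∀ j < k, √(Av N (fun g => gi g * ‖Yc N X t r j g‖ ^ 2)) ≤
        2 * σ^(k-j) * ‖Mc N gi X t r k‖ := by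
      intro j hj
      obtain ⟨a1, -, -, -, a5⟩ := ih j hj
      set m := ‖Mc N gi X t r j‖ with hm
      have h1 : Av N (fun g => gi g * ‖Yc N X t r j g‖ ^ 2) ≤ (2 * m)^2 := by
        calc Av N (fun g => gi g * ‖Yc N X t r j g‖ ^ 2)
            ≤ Av N (fun g => 2 * (gi g * ‖Yc N X t r j g - Mc N gi X t r j‖^2) +
              gi g * (2 * m ^ 2)) := by
              refine Av_mono fun g _ => ?_
              have h0 : ‖Yc N X t r j g‖ ≤ ‖Yc N X t r j g - Mc N gi X t r j‖ + m := by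
                have := norm_sub_norm_le (Yc N X t r j g) (Mc N gi X t r j)
                linarith
              have h2 : ‖Yc N X t r j g‖ ^ 2 ≤ 2 * ‖Yc N X t r j g - Mc N gi X t r j‖^2 +
                  2 * m ^ 2 := by
                have h3 := pow_le_pow_left₀ (norm_nonneg _) h0 2
                nlinarith [sq_nonneg (‖Yc N X t r j g - Mc N gi X t r j‖ - m)]
              have := mul_le_mul_of_nonneg_left h2 (H.gi0 g)
              linarith
          _ = 2 * Av N (fun g => gi g * ‖Yc N X t r j g - Mc N gi X t r j‖^2) +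
              Av N gi * (2 * m ^ 2) := by rw [Av_add, Av_mul, Av_mul_right]
          _ ≤ 2 * (ε * m)^2 + 1 * (2 * m ^ 2) := by
              apply add_le_add (by linarith)
              exact mul_le_mul_of_nonneg_right H.p1 (by positivity)
          _ ≤ (2 * m)^2 := by
              have h3 : ε^2 ≤ 1 := by
                have h0 := P.hε0
                have h2 := P.hε2
                nlinarith
              nlinarith [mul_nonneg (sub_nonneg.2 h3) (sq_nonneg m)]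
      calc √(Av N (fun g => gi g * ‖Yc N X t r j g‖ ^ 2)) ≤ √((2 * m)^2) :=
            Real.sqrt_le_sqrt h1
        _ = 2 * m := Real.sqrt_sq (by positivity)
        _ ≤ 2 * (σ^(k-j) * ‖Mc N gi X t r k‖) := by
            apply mul_le_mul_of_nonneg_left (hM j hj) (by norm_num)
        _ = _ := by ring
    have h1 : 1 ≤ σ^k * ‖Mc N gi X t r k‖ := by
      have := hle k 0 (by omega)
      have h0 : Mc N gi X t r 0 = 1 := rfl
      rwa [h0, norm_one] at this
    refine ⟨hpos, hM, hY, h1, ?_⟩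
    have h2 : Av N (fun g => gi g * ‖Yc N X t r k g - Mc N gi X t r k‖^2) ≤
        ‖Mc N gi X t r k‖ ^ 2 * Av N (fun g => Rc N gi X t r σ ρ k g ((fun _ => 0) g)) := by
      rw [← Av_mul]
      refine Av_mono fun g _ => ?_
      have h3 := ptwc_sq H t r k P.hσ P.hρ0 P.hσρ hpos hY h1 g 0
      rw [neg_zero, ex_zero, one_mul] at h3
      calc gi g * ‖Yc N X t r k g - Mc N gi X t r k‖^2
          ≤ 1 * ‖Yc N X t r k g - Mc N gi X t r k‖^2 :=
            mul_le_mul_of_nonneg_right (H.gi1 g) (sq_nonneg _)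
        _ ≤ _ := by rw [one_mul]; exact h3
    have h3 := Rc_avg H P.hθ P.hB P.hσ P.hρ0 P.hσρ P.hρ ht hr k N 1 (by omega) (fun _ => 0)
      (by simp only [abs_zero, mul_zero, Real.exp_zero]; rw [Av_const]; exact P.hB)
    calc _ ≤ _ := h2
      _ ≤ ‖Mc N gi X t r k‖ ^ 2 * ε^2 :=
          mul_le_mul_of_nonneg_left (h3.trans P.hε) (sq_nonneg _)
      _ = _ := by ring

end Pool.Agent.Zk36.UC
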