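import Pool.Agent.Zk36.UC.A
import Pool.Agent.Zk36.UW.Two

/-! Functionals which are additive at the good blocks: complex parameter. -/

set_option autoImplicit false
set_option linter.unusedSectionVars false

namespace Pool.Agent.Zk36.UC

open Finset Pool.Agent.Zk36.UW

variable {β : Type} [Fintype β] [Nonempty β]

/-- the exponential weight -/
noncomputable def ex (t : ℂ) (x : ℝ) : ℂ := Complex.exp (t * (x : ℂ))

theorem ex_add (t : ℂ) (x y : ℝ) : ex t (x + y) = ex t x * ex t y := by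
  unfold ex
  rw [← Complex.exp_add]
  congr 1
  push_cast
  ring

theorem ex_zero (t : ℂ) : ex t 0 = 1 := by
  unfold ex
  rw [Complex.ofReal_zero, mul_zero, Complex.exp_zero]

/-- partition function after the word `c` -/
noncomputable def Yc (N : ℕ) (X : List β → ℝ) (t : ℂ) (r k : ℕ) (c : List β) : ℂ :=
  Ac (k*N+r) (fun w => ex t (X (c ++ w)))

/-- the kernel -/
noncomputable def kerc (N : ℕ) (gi X : List β → ℝ) (t : ℂ) (s : ℕ) (c : List β) (z : ℝ)
    (g : List β) : ℂ :=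
  Ac (s*N) (fun d => (bi N gi s d : ℂ) * ex t (X (c ++ (d ++ g)) - X g - z))

/-- the last term -/
noncomputable def lasc (N : ℕ) (gi X : List β → ℝ) (t : ℂ) (r k : ℕ) (c : List β) (z : ℝ) : ℂ :=
  Ac (k*N+r) (fun w => (bi N gi k w : ℂ) * ex t (X (c ++ w) - z))

theorem renewalc {N : ℕ} {gi X : List β → ℝ} {c0 θ B : ℝ} (H : Hyp N gi X c0 θ B) (t : ℂ)
    (r k : ℕ) (c : List β) (z : ℝ) :
    ex t (-z) * Yc N X t r k c =
      ∑ s ∈ range k, Ac N (fun g => (gi g : ℂ) * (kerc N gi X t s c z g *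
        Yc N X t r (k-1-s) g)) + lasc N gi X t r k c z := by
  have h0 : ex t (-z) * Yc N X t r k c = Ac (k*N+r) (fun w => ex t (X (c ++ w) - z)) := by
    unfold Yc
    rw [← Ac_mul]
    refine Ac_congr fun w _ => ?_
    rw [← ex_add]
    congr 1
    ring
  rw [h0, decc N gi r k]
  congr 1
  refine Finset.sum_congr rfl fun s _ => ?_
  have h1 : Ac (s*N) (fun d => (bi N gi s d : ℂ) * Ac N (fun g => (gi g : ℂ) *
      Ac ((k-1-s)*N+r) (fun w => ex t (X (c ++ (d ++ (g ++ w))) - z)))) =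
      Ac (s*N) (fun d => Ac N (fun g => (gi g : ℂ) * ((bi N gi s d : ℂ) *
        ex t (X (c ++ (d ++ g)) - X g - z) * Yc N X t r (k-1-s) g))) := by
    refine Ac_congr fun d _ => ?_
    rw [← Ac_mul]
    refine Ac_congr fun g hg => ?_
    rcases H.gi01 g with hg0 | hg1
    · rw [hg0]; push_cast; ring
    · have h2 : Ac ((k-1-s)*N+r) (fun w => ex t (X (c ++ (d ++ (g ++ w))) - z)) =
          ex t (X (c ++ (d ++ g)) - X g - z) * Yc N X t r (k-1-s) g := by
        unfold Yc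
        rw [← Ac_mul]
        refine Ac_congr fun w _ => ?_
        rw [← ex_add]
        congr 1
        have h3 := H.split (c ++ d) g w hg hg1
        rw [List.append_assoc, List.append_assoc] at h3
        rw [h3]; ring
      rw [h2]; ring
  rw [h1, Ac_comm]
  refine Ac_congr fun g _ => ?_
  rw [Ac_mul]
  congr 1
  unfold kerc
  rw [← Ac_mul_right]

/-- squared distance of the kernel from the constant -/
noncomputable def qc (N : ℕ) (gi X : List β → ℝ) (t : ℂ) (s : ℕ) (c : List β) (z : ℝ) : ℝ :=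
  Av N (fun g => gi g * ‖kerc N gi X t s c z g - ((1 - Av N gi : ℝ) : ℂ)^s‖^2)

noncomputable def bc (N : ℕ) (gi X : List β → ℝ) (t : ℂ) (r k : ℕ) (c : List β) (z : ℝ) : ℝ :=
  ‖lasc N gi X t r k c z - ((1 - Av N gi : ℝ) : ℂ)^k‖^2

theorem ex_sub_one_sq {t : ℂ} {θ D x y z : ℝ} (hθ : 0 < θ) (ht : ‖t‖ ≤ θ / 12)
    (hD : |D| ≤ |x| + |y| + |z|) : ‖ex t D - 1‖^2 ≤
      72 * (‖t‖/θ)^2 * (Real.exp (θ * |x|) + Real.exp (θ * |y|) + Real.exp (θ * |z|)) := by
  set η := θ / 6 with hη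
  have hη0 : 0 < η := by positivity
  set S := |x| + |y| + |z| with hS
  have hS0 : 0 ≤ S := by positivity
  have h1 : ‖ex t D - 1‖ ≤ ‖t * (D : ℂ)‖ * Real.exp ‖t * (D : ℂ)‖ := by
    have := Complex.norm_exp_sub_sum_le_norm_mul_exp (t * (D : ℂ)) 1
    simpa [ex] using this
  have h2 : ‖t * (D : ℂ)‖ ≤ ‖t‖ * S := by
    rw [norm_mul, Complex.norm_real, Real.norm_eq_abs]
    exact mul_le_mul_of_nonneg_left hD (norm_nonneg _)
  have h3 : ‖ex t D - 1‖ ≤ ‖t‖ * S * Real.exp (‖t‖ * S) :=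
    h1.trans (mul_le_mul h2 (Real.exp_le_exp.2 h2) (Real.exp_pos _).le (by positivity))
  have h4 : ‖ex t D - 1‖^2 ≤ (‖t‖ * S * Real.exp (‖t‖ * S))^2 :=
    pow_le_pow_left₀ (norm_nonneg _) h3 2
  have h5 : (‖t‖ * S * Real.exp (‖t‖ * S))^2 = ‖t‖^2 * S^2 * Real.exp (2 * ‖t‖ * S) := by
    rw [mul_pow, mul_pow, ← Real.exp_nat_mul]
    congr 2
    push_cast; ring
  have h6 : S^2 ≤ 2/η^2 * Real.exp (η * S) := by
    have := Real.quadratic_le_exp_of_nonneg (mul_nonneg hη0.le hS0)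
    have h7 : (η * S)^2 / 2 ≤ Real.exp (η * S) := by nlinarith [mul_nonneg hη0.le hS0]
    rw [div_mul_eq_mul_div, le_div_iff₀ (by positivity)]
    nlinarith
  have h7 : Real.exp (2 * ‖t‖ * S) ≤ Real.exp (η * S) := by
    apply Real.exp_le_exp.2
    apply mul_le_mul_of_nonneg_right _ hS0
    rw [hη]; linarith
  have h8 : Real.exp (η * S) * Real.exp (η * S) ≤
      Real.exp (θ * |x|) + Real.exp (θ * |y|) + Real.exp (θ * |z|) := by
    rw [← Real.exp_add]
    have m1 : S ≤ 3 * max (max |x| |y|) |z| := by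
      have a1 := le_max_left |x| |y|
      have a2 := le_max_right |x| |y|
      have a3 := le_max_left (max |x| |y|) |z|
      have a4 := le_max_right (max |x| |y|) |z|
      rw [hS]; linarith
    have m2 : η * S + η * S ≤ θ * max (max |x| |y|) |z| := by
      rw [hη]; nlinarith
    refine (Real.exp_le_exp.2 m2).trans ?_
    have p1 := Real.exp_pos (θ * |x|)
    have p2 := Real.exp_pos (θ * |y|)
    have p3 := Real.exp_pos (θ * |z|)
    rcases max_choice (max |x| |y|) |z| with h | h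
    · rw [h]
      rcases max_choice |x| |y| with h' | h' <;> rw [h'] <;> linarith
    · rw [h]; linarith
  calc ‖ex t D - 1‖^2 ≤ ‖t‖^2 * S^2 * Real.exp (2 * ‖t‖ * S) := h4.trans h5.le
    _ ≤ ‖t‖^2 * (2/η^2 * Real.exp (η * S)) * Real.exp (η * S) := by
        apply mul_le_mul _ h7 (Real.exp_pos _).le (by positivity)
        exact mul_le_mul_of_nonneg_left h6 (sq_nonneg _)
    _ = (2 * ‖t‖^2/η^2) * (Real.exp (η * S) * Real.exp (η * S)) := by ring
    _ ≤ (2 * ‖t‖^2/η^2) * (Real.exp (θ * |x|) + Real.exp (θ * |y|) + Real.exp (θ * |z|)) :=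
        mul_le_mul_of_nonneg_left h8 (by positivity)
    _ = _ := by rw [hη]; field_simp; ring

end Pool.Agent.Zk36.UC
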