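import Pool.Agent.Zk36.UC.H
import Pool.Agent.Zk36.UW.SL

/-! Complex exponential moments and cumulants of the scaling limits of the winding angle. -/

set_option autoImplicit false

namespace Pool.Agent.Zk36.UC

open MeasureTheory Filter Topology H906K Pool.Agent.Zk36.CG Pool.Agent.Zk36.UW
open scoped ENNReal BoundedContinuousFunction

theorem law_cintegral (n M : ℕ) (z : ℂ) :
    ∫ x, Complex.exp (z * (x : ℂ)) ∂(lawM n M) = mgc n M z := by
  unfold lawM mgc
  rw [integral_finsetSum_measure, Finset.sum_div]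
  · refine Finset.sum_congr rfl fun c _ => ?_
    rw [integral_smul_measure, integral_dirac, ENNReal.toReal_ofReal (by positivity),
      Complex.real_smul]
    push_cast
    ring
  · intro c _
    exact (integrable_dirac (by simp [enorm])).smul_measure ENNReal.ofReal_ne_top

/-- cut-off of the argument -/
noncomputable def cl (k x : ℝ) : ℝ := max (-k) (min k x)

theorem cl_cont (k : ℝ) : Continuous (cl k) := by unfold cl; fun_prop

theorem cl_abs {k : ℝ} (hk : 0 ≤ k) (x : ℝ) : |cl k x| ≤ k := by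
  unfold cl
  rw [abs_le]
  exact ⟨le_max_left _ _, max_le (by linarith) (min_le_left _ _)⟩

theorem cl_eq {k x : ℝ} (h : |x| ≤ k) : cl k x = x := by
  rw [abs_le] at h
  unfold cl
  rw [min_eq_right h.2, max_eq_right h.1]

theorem norm_cexp_le (z : ℂ) (x : ℝ) : ‖Complex.exp (z * (x : ℂ))‖ ≤ Real.exp (‖z‖ * |x|) := by
  refine (Complex.norm_exp_le_exp_norm _).trans (le_of_eq ?_)
  rw [norm_mul, Complex.norm_real, Real.norm_eq_abs]

/-- cut-off exponential -/
noncomputable def phc (z : ℂ) (k : ℝ) (hk : 0 ≤ k) : ℝ →ᵇ ℂ :=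
  BoundedContinuousFunction.ofNormedAddCommGroup (fun x => Complex.exp (z * ((cl k x : ℝ) : ℂ)))
    (by have := cl_cont k; fun_prop) (Real.exp (‖z‖ * k)) (by
      intro x
      refine (norm_cexp_le z _).trans (Real.exp_le_exp.2 ?_)
      exact mul_le_mul_of_nonneg_left (cl_abs hk x) (norm_nonneg _))

theorem phc_close {z : ℂ} {s k : ℝ} (hk : 0 ≤ k) (hs : 0 < s) (hz : ‖z‖ ≤ s / 2) (x : ℝ) :
    ‖Complex.exp (z * (x : ℂ)) - phc z k hk x‖ ≤
      2 * Real.exp (-(s / 2 * k)) * (Real.exp (s * x) + Real.exp (-s * x)) := by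
  have hp : phc z k hk x = Complex.exp (z * ((cl k x : ℝ) : ℂ)) := rfl
  rw [hp]
  rcases le_or_gt |x| k with h | h
  · rw [cl_eq h, sub_self, norm_zero]
    positivity
  · have h1 : ‖Complex.exp (z * (x : ℂ))‖ ≤ Real.exp (s / 2 * |x|) :=
      (norm_cexp_le z x).trans (Real.exp_le_exp.2 (mul_le_mul_of_nonneg_right hz (abs_nonneg _)))
    have h2 : ‖Complex.exp (z * ((cl k x : ℝ) : ℂ))‖ ≤ Real.exp (s / 2 * |x|) := by
      refine (norm_cexp_le z _).trans (Real.exp_le_exp.2 ?_)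
      exact mul_le_mul hz ((cl_abs hk x).trans h.le) (abs_nonneg _) (by positivity)
    have h3 : Real.exp (s / 2 * |x|) ≤
        Real.exp (-(s / 2 * k)) * (Real.exp (s * x) + Real.exp (-s * x)) := by
      have e1 : Real.exp (s / 2 * |x|) = Real.exp (-(s / 2 * |x|)) * Real.exp (s * |x|) := by
        rw [← Real.exp_add]; congr 1; ring
      rw [e1]
      have h4 : Real.exp (-(s / 2 * |x|)) ≤ Real.exp (-(s / 2 * k)) := by
        apply Real.exp_le_exp.2
        have := mul_le_mul_of_nonneg_left h.le (by positivity : 0 ≤ s / 2)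
        linarith
      have h5 : Real.exp (s * |x|) ≤ Real.exp (s * x) + Real.exp (-s * x) := by
        have p1 := Real.exp_pos (s * x)
        have p2 := Real.exp_pos (-s * x)
        rcases abs_choice x with hx | hx
        · rw [hx]; linarith
        · rw [hx, show s * -x = -s * x by ring]; linarith
      exact mul_le_mul h4 h5 (Real.exp_pos _).le (Real.exp_pos _).le
    calc ‖Complex.exp (z * (x : ℂ)) - Complex.exp (z * ((cl k x : ℝ) : ℂ))‖
        ≤ ‖Complex.exp (z * (x : ℂ))‖ + ‖Complex.exp (z * ((cl k x : ℝ) : ℂ))‖ := norm_sub_le _ _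
      _ ≤ _ := by linarith

/-- integrability of the complex exponential -/
theorem cexp_int {μ : Measure ℝ} {z : ℂ} {s : ℝ} (hz : ‖z‖ ≤ s)
    (h1 : Integrable (fun x => Real.exp (s * x)) μ)
    (h2 : Integrable (fun x => Real.exp (-s * x)) μ) :
    Integrable (fun x : ℝ => Complex.exp (z * (x : ℂ))) μ := by
  refine (h1.add h2).mono'
    (by fun_prop : Continuous fun x : ℝ => Complex.exp (z * (x : ℂ))).aestronglyMeasurable
    (Eventually.of_forall fun x => ?_)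
  refine (norm_cexp_le z x).trans ?_
  simp only [Pi.add_apply]
  have p1 := Real.exp_pos (s * x)
  have p2 := Real.exp_pos (-s * x)
  have h3 : Real.exp (‖z‖ * |x|) ≤ Real.exp (s * |x|) :=
    Real.exp_le_exp.2 (mul_le_mul_of_nonneg_right hz (abs_nonneg _))
  refine h3.trans ?_
  rcases abs_choice x with hx | hx
  · rw [hx]; linarith
  · rw [hx, show s * -x = -s * x by ring]; linarith

theorem int_close {μ : Measure ℝ} [IsProbabilityMeasure μ] {z : ℂ} {s k U : ℝ} (hk : 0 ≤ k)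
    (hs : 0 < s) (hz : ‖z‖ ≤ s / 2)
    (h1 : Integrable (fun x => Real.exp (s * x)) μ)
    (h2 : Integrable (fun x => Real.exp (-s * x)) μ) (u1 : ∫ x, Real.exp (s * x) ∂μ ≤ U)
    (u2 : ∫ x, Real.exp (-s * x) ∂μ ≤ U) :
    ‖∫ x, Complex.exp (z * (x : ℂ)) ∂μ - ∫ x, phc z k hk x ∂μ‖ ≤
      4 * U * Real.exp (-(s / 2 * k)) := by
  have i1 := cexp_int (by linarith : ‖z‖ ≤ s) h1 h2
  have i2 : Integrable (fun x => phc z k hk x) μ := (phc z k hk).integrable _
  rw [← integral_sub i1 i2]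
  refine (norm_integral_le_integral_norm _).trans ?_
  have h3 : ∫ x, ‖Complex.exp (z * (x : ℂ)) - phc z k hk x‖ ∂μ ≤
      ∫ x, 2 * Real.exp (-(s / 2 * k)) * (Real.exp (s * x) + Real.exp (-s * x)) ∂μ :=
    integral_mono (i1.sub i2).norm ((h1.add h2).const_mul _) (fun x => phc_close hk hs hz x)
  refine h3.trans ?_
  rw [integral_const_mul, integral_add h1 h2]
  have := Real.exp_pos (-(s / 2 * k))
  nlinarith

/-- convergence of complex exponential moments -/
theorem lim_cexp {μs : ℕ → ProbabilityMeasure ℝ} {μ : ProbabilityMeasure ℝ}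
    (hμ : Tendsto μs atTop (𝓝 μ)) {z : ℂ} {s U : ℝ} (hs : 0 < s) (hz : ‖z‖ ≤ s / 2)
    (h : ∀ᶠ i in atTop, Integrable (fun x => Real.exp (s * x)) (μs i : Measure ℝ) ∧
      Integrable (fun x => Real.exp (-s * x)) (μs i : Measure ℝ) ∧
      ∫ x, Real.exp (s * x) ∂(μs i : Measure ℝ) ≤ U ∧
      ∫ x, Real.exp (-s * x) ∂(μs i : Measure ℝ) ≤ U)
    (h1 : Integrable (fun x => Real.exp (s * x)) (μ : Measure ℝ))
    (h2 : Integrable (fun x => Real.exp (-s * x)) (μ : Measure ℝ))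
    (u1 : ∫ x, Real.exp (s * x) ∂(μ : Measure ℝ) ≤ U)
    (u2 : ∫ x, Real.exp (-s * x) ∂(μ : Measure ℝ) ≤ U) :
    Tendsto (fun i => ∫ x, Complex.exp (z * (x : ℂ)) ∂(μs i : Measure ℝ)) atTop
      (𝓝 (∫ x, Complex.exp (z * (x : ℂ)) ∂(μ : Measure ℝ))) := by
  rw [Metric.tendsto_nhds]
  intro ε hε
  have h0 : Tendsto (fun k : ℝ => 4 * U * Real.exp (-(s / 2 * k))) atTop (𝓝 (4 * U * 0)) := by
    apply Tendsto.const_mul
    exact Real.tendsto_exp_neg_atTop_nhds_zero.comp (tendsto_id.const_mul_atTop (by positivity))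
  rw [mul_zero] at h0
  obtain ⟨k, hk1, hk2⟩ := ((h0.eventually_lt_const (by positivity : (0:ℝ) < ε / 3)).and
    (eventually_ge_atTop (0:ℝ))).exists
  have h3 := (ProbabilityMeasure.tendsto_iff_forall_integral_rclike_tendsto ℂ).1 hμ (phc z k hk2)
  rw [Metric.tendsto_nhds] at h3
  filter_upwards [h, h3 (ε / 3) (by positivity)] with i hi h4
  have c1 := int_close hk2 hs hz hi.1 hi.2.1 hi.2.2.1 hi.2.2.2
  have c2 := int_close hk2 hs hz h1 h2 u1 u2
  rw [dist_eq_norm] at h4 ⊢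
  set A := ∫ x, Complex.exp (z * (x : ℂ)) ∂(μs i : Measure ℝ)
  set B := ∫ x, Complex.exp (z * (x : ℂ)) ∂(μ : Measure ℝ)
  set A' := ∫ x, phc z k hk2 x ∂(μs i : Measure ℝ)
  set B' := ∫ x, phc z k hk2 x ∂(μ : Measure ℝ)
  have e : A - B = (A - A') + (A' - B') - (B - B') := by ring
  rw [e]
  refine (norm_sub_le _ _).trans_lt ?_
  have := norm_add_le (A - A') (A' - B')
  linarith

/-- **complex exponential moments of the scaling limits** -/
theorem limit_complex : ∃ R : ℝ, 0 < R ∧ ∃ K : ℝ, 0 ≤ K ∧ ∀ (h : ℝ) (μ : ProbabilityMeasure ℝ),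
    ScalingLimit h μ → ∀ z : ℂ, ‖z‖ < R →
      Integrable (fun x : ℝ => Complex.exp (z * (x : ℂ))) (μ : Measure ℝ) ∧
      ‖Complex.exp (-(3 * z ^ 2 * (h : ℂ))) * ∫ x, Complex.exp (z * (x : ℂ)) ∂(μ : Measure ℝ) - 1‖ ≤
        K * ‖z‖ ^ 2 := by
  obtain ⟨t0, ht0, K0, hK0, e0, he0, he00, H⟩ := uniform_laplace
  obtain ⟨R1, hR1, K, hK, ε, hε, hε0, HC⟩ := complex_unif
  set s := t0 / 2 with hs
  have hs0 : 0 < s := by positivity
  set R := min R1 (s / 2) with hRd
  have hR : 0 < R := by positivity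
  refine ⟨R, hR, K * Real.exp (K * R ^ 2), by positivity, fun h μ hμ z hz => ?_⟩
  have hzs : ‖z‖ ≤ s / 2 := hz.le.trans (min_le_right _ _)
  have hzR : ‖z‖ < R1 := hz.trans_le (min_le_left _ _)
  have a1 : |2 * s| ≤ t0 := by rw [abs_of_pos (by positivity)]; linarith
  have a2 : |2 * -s| ≤ t0 := by rw [show 2 * -s = -(2 * s) by ring, abs_neg]; exact a1
  obtain ⟨c1, c2, -⟩ := limit_exp H he0 hμ a1
  obtain ⟨d1, d2, -⟩ := limit_exp H he0 hμ a2
  obtain ⟨n, M, hn, hM, hl⟩ := hμ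
  have hint := cexp_int (by linarith : ‖z‖ ≤ s) c1 d1
  refine ⟨hint, ?_⟩
  set U := max (Real.exp (3 * s ^ 2 * h + K0 * |s|)) (Real.exp (3 * (-s) ^ 2 * h + K0 * |-s|)) + 1
    with hU
  have u1 : Real.exp (3 * s ^ 2 * h + K0 * |s|) < U :=
    lt_of_le_of_lt (le_max_left _ _) (lt_add_one _)
  have u2 : Real.exp (3 * (-s) ^ 2 * h + K0 * |-s|) < U :=
    lt_of_le_of_lt (le_max_right _ _) (lt_add_one _)
  have s1 : |s| ≤ t0 := by rw [abs_of_pos hs0]; linarith
  have b1 := seq_bounds H hn (M := M) s1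
  have b2 := seq_bounds H hn (M := M) (t := -s) (by rwa [abs_neg])
  have l1 := (seq_lims H he0 hn hM s).2
  have l2 := (seq_lims H he0 hn hM (-s)).2
  have hev : ∀ᶠ i in atTop, Integrable (fun x => Real.exp (s * x))
      (lawW (n i) (M i) : Measure ℝ) ∧
      Integrable (fun x => Real.exp (-s * x)) (lawW (n i) (M i) : Measure ℝ) ∧
      ∫ x, Real.exp (s * x) ∂(lawW (n i) (M i) : Measure ℝ) ≤ U ∧
      ∫ x, Real.exp (-s * x) ∂(lawW (n i) (M i) : Measure ℝ) ≤ U := by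
    filter_upwards [b1, b2, l1.eventually_lt_const u1, l2.eventually_lt_const u2] with i q1 q2 q3 q4
    exact ⟨law_intble _ _ _, law_intble _ _ _, q1.2.trans q3.le, q2.2.trans q4.le⟩
  have hF := lim_cexp hl hs0 hzs hev c1 d1 (c2.trans u1.le) (d2.trans u2.le)
  have hG : Tendsto (fun i => Complex.exp (-(3 * z ^ 2 * (ht (n i) (M i) : ℂ))) *
      ∫ x, Complex.exp (z * (x : ℂ)) ∂(lawW (n i) (M i) : Measure ℝ)) atTop
      (𝓝 (Complex.exp (-(3 * z ^ 2 * (h : ℂ))) *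
        ∫ x, Complex.exp (z * (x : ℂ)) ∂(μ : Measure ℝ))) := by
    apply Tendsto.mul _ hF
    have h1 : Tendsto (fun i => ((ht (n i) (M i) : ℝ) : ℂ)) atTop (𝓝 (h : ℂ)) :=
      (Complex.continuous_ofReal.tendsto _).comp hM
    exact (Complex.continuous_exp.tendsto _).comp ((h1.const_mul (3 * z ^ 2)).neg)
  have hb : Tendsto (fun i => (K + ε (n i) * ht (n i) (M i)) * ‖z‖ ^ 2) atTop
      (𝓝 (K * ‖z‖ ^ 2)) := by
    have h1 : Tendsto (fun i => K + ε (n i) * ht (n i) (M i)) atTop (𝓝 (K + 0 * h)) :=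
      ((hε.comp hn).mul hM).const_add _
    rw [zero_mul, add_zero] at h1
    exact h1.mul_const _
  have hb2 : Tendsto (fun i => (K + ε (n i) * ht (n i) (M i)) * ‖z‖ ^ 2 *
      Real.exp ((K + ε (n i) * ht (n i) (M i)) * ‖z‖ ^ 2)) atTop
      (𝓝 (K * ‖z‖ ^ 2 * Real.exp (K * ‖z‖ ^ 2))) :=
    hb.mul ((Real.continuous_exp.tendsto _).comp hb)
  have hfin : ‖Complex.exp (-(3 * z ^ 2 * (h : ℂ))) *
      ∫ x, Complex.exp (z * (x : ℂ)) ∂(μ : Measure ℝ) - 1‖ ≤
      K * ‖z‖ ^ 2 * Real.exp (K * ‖z‖ ^ 2) := by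
    refine le_of_tendsto_of_tendsto (hG.sub_const 1).norm hb2 ?_
    filter_upwards [hn.eventually_ge_atTop 1] with i hi
    obtain ⟨w, hw1, hw2⟩ := HC (n i) hi (M i) z hzR
    have e1 : ∫ x, Complex.exp (z * (x : ℂ)) ∂(lawW (n i) (M i) : Measure ℝ) =
        mgc (n i) (M i) z := law_cintegral _ _ _
    rw [e1, hw2, ← Complex.exp_add, neg_add_cancel_left]
    have h3 : ‖Complex.exp w - 1‖ ≤ ‖w‖ * Real.exp ‖w‖ := by
      have := Complex.norm_exp_sub_sum_le_norm_mul_exp w 1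
      simpa using this
    exact h3.trans (mul_le_mul hw1 (Real.exp_le_exp.2 hw1) (Real.exp_pos _).le
      ((norm_nonneg _).trans hw1))
  refine hfin.trans ?_
  have h4 : Real.exp (K * ‖z‖ ^ 2) ≤ Real.exp (K * R ^ 2) :=
    Real.exp_le_exp.2 (mul_le_mul_of_nonneg_left (pow_le_pow_left₀ (norm_nonneg _) hz.le 2) hK)
  calc K * ‖z‖ ^ 2 * Real.exp (K * ‖z‖ ^ 2) ≤ K * ‖z‖ ^ 2 * Real.exp (K * R ^ 2) :=
        mul_le_mul_of_nonneg_left h4 (by positivity)
    _ = _ := by ring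

end Pool.Agent.Zk36.UC
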