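import Pool.Agent.Zk36.UC.I
import Pool.Agent.Zk36.UW.Abs

/-! The complex partition function is multiplicative up to constants. -/

set_option autoImplicit false
set_option linter.unusedSectionVars false

namespace Pool.Agent.Zk36.UC

open Finset Pool.Agent.Zk36.UW

variable {β : Type} [Fintype β] [Nonempty β]

variable {N : ℕ} {gi X : List β → ℝ} {c0 θ B : ℝ}

/-- the partition function -/
noncomputable def Zc (X : List β → ℝ) (t : ℂ) (M : ℕ) : ℂ := Ac M (fun w => ex t (X w))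

theorem Yc_rev (H : Hyp N gi X c0 θ B) (t : ℂ) (r' l : ℕ) (d g w : List β) (hg : g.length = N)
    (h1 : rv gi g = 1) : Yc N X t r' l (d ++ (g ++ w)).reverse =
      ex t (-rv X g) * Yc N X t r' l (g.reverse ++ d.reverse) * ex t (rv X (g ++ w)) := by
  unfold Yc
  rw [mul_assoc, ← Ac_mul_right, ← Ac_mul]
  refine Ac_congr fun v _ => ?_
  rw [← ex_add, ← ex_add]
  congr 1
  have h := H.split w.reverse g.reverse (d.reverse ++ v) (by simpa using hg) h1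
  unfold rv
  simp only [List.reverse_append, List.append_assoc]
  rw [h]
  ring

/-- the outer kernel -/
noncomputable def kouc (N : ℕ) (gi X : List β → ℝ) (t : ℂ) (r' l s : ℕ) (g : List β) : ℂ :=
  Ac (s*N) (fun d => (bi N (rv gi) s d : ℂ) *
    (ex t (-rv X g) * Yc N X t r' l (g.reverse ++ d.reverse)))

noncomputable def louc (N : ℕ) (gi X : List β → ℝ) (t : ℂ) (r r' k l : ℕ) : ℂ :=
  Ac (k*N+r) (fun w => (bi N (rv gi) k w : ℂ) * Yc N X t r' l w.reverse)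

theorem outerc (H : Hyp N gi X c0 θ B) (t : ℂ) (r r' k l : ℕ) :
    Zc X t ((k*N+r) + (l*N+r')) = ∑ s ∈ range k, Ac N (fun g => (rv gi g : ℂ) *
      (kouc N gi X t r' l s g * Yc N (rv X) t r (k-1-s) g)) + louc N gi X t r r' k l := by
  have h0 : Zc X t ((k*N+r) + (l*N+r')) = Ac (k*N+r) (fun u => Yc N X t r' l u.reverse) := by
    unfold Zc
    rw [Ac_append, Ac_reverse (k*N+r) (fun u => Yc N X t r' l u)]
    rfl
  rw [h0, decc N (rv gi) r k]
  unfold louc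
  congr 1
  refine Finset.sum_congr rfl fun s _ => ?_
  have h1 : Ac (s*N) (fun d => (bi N (rv gi) s d : ℂ) * Ac N (fun g => (rv gi g : ℂ) *
      Ac ((k-1-s)*N+r) (fun w => Yc N X t r' l (d ++ (g ++ w)).reverse))) =
      Ac (s*N) (fun d => Ac N (fun g => (rv gi g : ℂ) * ((bi N (rv gi) s d : ℂ) *
        (ex t (-rv X g) * Yc N X t r' l (g.reverse ++ d.reverse)) *
          Yc N (rv X) t r (k-1-s) g))) := by
    refine Ac_congr fun d _ => ?_
    rw [← Ac_mul]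
    refine Ac_congr fun g hg => ?_
    rcases H.rev.gi01 g with hg0 | hg1
    · rw [hg0]; push_cast; ring
    · have h2 : Ac ((k-1-s)*N+r) (fun w => Yc N X t r' l (d ++ (g ++ w)).reverse) =
          ex t (-rv X g) * Yc N X t r' l (g.reverse ++ d.reverse) *
            Yc N (rv X) t r (k-1-s) g := by
        unfold Yc
        rw [← Ac_mul]
        exact Ac_congr fun w _ => Yc_rev H t r' l d g w hg hg1
      rw [h2]; ring
  rw [h1, Ac_comm]
  refine Ac_congr fun g _ => ?_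
  rw [Ac_mul]
  congr 1
  unfold kouc
  rw [← Ac_mul_right]

theorem Yc_close (H : Hyp N gi X c0 θ B) {σ ρ ε : ℝ} {t : ℂ} (P : Par c0 θ B σ ρ ε ‖t‖) {r' : ℕ}
    (hr' : r' ≤ N) (l : ℕ) (c : List β) (z : ℝ) :
    ‖ex t (-z) * Yc N X t r' l c - Mc N gi X t r' l‖^2 ≤
      ‖Mc N gi X t r' l‖ ^ 2 * Rc N gi X t r' σ ρ l c z := by
  obtain ⟨a1, -, a3, a4, -⟩ := main_indc H P hr' l
  exact ptwc_sq H t r' l P.hσ P.hρ0 P.hσρ a1 a3 a4 c z

theorem normt {c0 θ B σ ρ ε : ℝ} {t : ℂ} (P : Par c0 θ B σ ρ ε ‖t‖) : ‖t‖ ≤ θ / 12 := by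
  have := P.ht
  rwa [abs_of_nonneg (norm_nonneg t)] at this

theorem kouc_close (H : Hyp N gi X c0 θ B) {σ ρ ε : ℝ} {t : ℂ} (P : Par c0 θ B σ ρ ε ‖t‖)
    {r' : ℕ} (hr' : r' ≤ N) (l s : ℕ) :
    √(Av N (fun g => rv gi g * ‖kouc N gi X t r' l s g -
      ((1 - Av N gi : ℝ) : ℂ)^s * Mc N gi X t r' l‖^2)) ≤ ‖Mc N gi X t r' l‖ * (ρ^s * ε) := by
  obtain ⟨a1, -, -, -, -⟩ := main_indc H P hr' l
  have hp : 0 ≤ (1 - Av N gi)^s := pow_nonneg (by linarith [H.p1]) s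
  have hbi : Ac (s*N) (fun d => (bi N (rv gi) s d : ℂ)) = ((1 - Av N gi : ℝ) : ℂ)^s := by
    rw [← pav H]; exact Ac_bi' H.rev s
  rw [← Real.sqrt_sq (mul_nonneg a1.le (mul_nonneg (pow_nonneg P.hρ0.le s) P.hε0))]
  apply Real.sqrt_le_sqrt
  have h1 : Av N (fun g => rv gi g * ‖kouc N gi X t r' l s g -
      ((1 - Av N gi : ℝ) : ℂ)^s * Mc N gi X t r' l‖^2) ≤ (1 - Av N gi)^s *
        ‖Mc N gi X t r' l‖ ^ 2 *
      Av N (fun g => Av (s*N) (fun d => Rc N gi X t r' σ ρ l (g.reverse ++ d.reverse)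
        (X g.reverse))) := by
    rw [← Av_mul]
    refine Av_mono fun g _ => ?_
    have h2 : kouc N gi X t r' l s g - ((1 - Av N gi : ℝ) : ℂ)^s * Mc N gi X t r' l =
        Ac (s*N) (fun d => (bi N (rv gi) s d : ℂ) * (ex t (-rv X g) *
          Yc N X t r' l (g.reverse ++ d.reverse) - Mc N gi X t r' l)) := by
      unfold kouc
      rw [← hbi, ← Ac_mul_right, ← Ac_sub]
      exact Ac_congr fun d _ => by ring
    have h3 := Ac_cs (s*N) (fun d => (bi N (rv gi) s d : ℂ)) (fun d => ex t (-rv X g) *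
          Yc N X t r' l (g.reverse ++ d.reverse) - Mc N gi X t r' l)
    rw [← h2] at h3
    have h4 : Av (s*N) (fun d => ‖(bi N (rv gi) s d : ℂ)‖ ^ 2) = (1 - Av N gi)^s := by
      rw [← pav H, ← Av_bi' H.rev]
      exact Av_congr fun d _ => norm_bi_sq H.rev s d
    rw [h4] at h3
    calc rv gi g * ‖kouc N gi X t r' l s g - ((1 - Av N gi : ℝ) : ℂ)^s * Mc N gi X t r' l‖^2
        ≤ 1 * ‖kouc N gi X t r' l s g - ((1 - Av N gi : ℝ) : ℂ)^s * Mc N gi X t r' l‖^2 :=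
          mul_le_mul_of_nonneg_right (H.rev.gi1 g) (sq_nonneg _)
      _ ≤ (1 - Av N gi)^s * Av (s*N) (fun d => ‖ex t (-rv X g) *
          Yc N X t r' l (g.reverse ++ d.reverse) - Mc N gi X t r' l‖^2) := by
          rw [one_mul]; exact h3
      _ ≤ (1 - Av N gi)^s * Av (s*N) (fun d => ‖Mc N gi X t r' l‖ ^ 2 *
          Rc N gi X t r' σ ρ l (g.reverse ++ d.reverse) (X g.reverse)) := by
          apply mul_le_mul_of_nonneg_left _ hp
          exact Av_mono fun d _ => Yc_close H P hr' l _ _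
      _ = _ := by rw [Av_mul]; ring
  have h5 : Av N (fun g => Av (s*N) (fun d => Rc N gi X t r' σ ρ l (g.reverse ++ d.reverse)
        (X g.reverse))) = Av (N + s*N) (fun c => Rc N gi X t r' σ ρ l c (X (c.take N))) := by
    rw [Av_append]
    have e1 : ∀ g : List β, Av (s*N) (fun d => Rc N gi X t r' σ ρ l (g.reverse ++ d.reverse)
        (X g.reverse)) = Av (s*N) (fun d => Rc N gi X t r' σ ρ l (g.reverse ++ d)
        (X g.reverse)) := fun g =>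
      Av_reverse (s*N) (fun d => Rc N gi X t r' σ ρ l (g.reverse ++ d) (X g.reverse))
    simp only [e1]
    rw [Av_reverse N (fun g => Av (s*N) (fun d => Rc N gi X t r' σ ρ l (g ++ d) (X g)))]
    refine Av_congr fun g hg => Av_congr fun d _ => ?_
    rw [List.take_left' hg]
  have h6 : Av (N + s*N) (fun c : List β => Real.exp (θ * |X (c.take N)|)) ≤ B := by
    rw [Av_append]
    have e1 : Av N (fun g => Av (s*N) (fun d => Real.exp (θ * |X ((g ++ d).take N)|))) =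
        Av N (fun g => Real.exp (θ * |X g|)) := by
      refine Av_congr fun g hg => ?_
      rw [← Av_const (β := β) (s*N) (Real.exp (θ * |X g|))]
      refine Av_congr fun d _ => ?_
      rw [List.take_left' hg]
    rw [e1]
    have := H.mom N 1 le_rfl (by omega)
    rwa [pow_one] at this
  have h7 := Rc_avg H P.hθ P.hB P.hσ P.hρ0 P.hσρ P.hρ (normt P) hr' l (N + s*N) (s+1)
    (by rw [add_mul, one_mul, add_comm]) (fun c => X (c.take N)) h6
  refine h1.trans ?_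
  rw [h5]
  have hε := P.hε
  calc (1 - Av N gi)^s * ‖Mc N gi X t r' l‖ ^ 2 *
        Av (N + s*N) (fun c => Rc N gi X t r' σ ρ l c (X (c.take N)))
      ≤ (1 - Av N gi)^s * ‖Mc N gi X t r' l‖ ^ 2 *
        ((2 * σ / (1 - σ * ρ))^2 * (216 * (‖t‖/θ)^2 * B^(s+1+1))) :=
        mul_le_mul_of_nonneg_left h7 (mul_nonneg hp (sq_nonneg _))
    _ = ‖Mc N gi X t r' l‖ ^ 2 * (((1 - Av N gi)^s * B^s) *
        ((2 * σ / (1 - σ * ρ))^2 * (216 * (‖t‖/θ)^2 * B^2))) := by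
        rw [show s + 1 + 1 = s + 2 by ring, pow_add B s 2]; ring
    _ ≤ ‖Mc N gi X t r' l‖ ^ 2 * ((ρ^s)^2 * ε^2) := by
        apply mul_le_mul_of_nonneg_left _ (sq_nonneg _)
        exact mul_le_mul (aB H P s) hε (by positivity) (by positivity)
    _ = _ := by ring

theorem louc_close (H : Hyp N gi X c0 θ B) {σ ρ ε : ℝ} {t : ℂ} (P : Par c0 θ B σ ρ ε ‖t‖)
    {r r' : ℕ} (hr : r ≤ N) (hr' : r' ≤ N) (k l : ℕ) :
    ‖louc N gi X t r r' k l - ((1 - Av N gi : ℝ) : ℂ)^k * Mc N gi X t r' l‖ ≤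
      ‖Mc N gi X t r' l‖ * (ρ^k * ε) := by
  obtain ⟨a1, -, -, -, -⟩ := main_indc H P hr' l
  have hp : 0 ≤ (1 - Av N gi)^k := pow_nonneg (by linarith [H.p1]) k
  have hbi : Ac (k*N+r) (fun w => (bi N (rv gi) k w : ℂ)) = ((1 - Av N gi : ℝ) : ℂ)^k := by
    rw [← pav H]; exact Ac_bi N (rv gi) r k
  have hn : 0 ≤ ‖Mc N gi X t r' l‖ * (ρ^k * ε) :=
    mul_nonneg a1.le (mul_nonneg (pow_nonneg P.hρ0.le k) P.hε0)
  rw [← Real.sqrt_sq hn, ← Real.sqrt_sq (norm_nonneg (louc N gi X t r r' k l -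
    ((1 - Av N gi : ℝ) : ℂ)^k * Mc N gi X t r' l))]
  apply Real.sqrt_le_sqrt
  have h2 : louc N gi X t r r' k l - ((1 - Av N gi : ℝ) : ℂ)^k * Mc N gi X t r' l =
      Ac (k*N+r) (fun w => (bi N (rv gi) k w : ℂ) *
        (Yc N X t r' l w.reverse - Mc N gi X t r' l)) := by
    unfold louc
    rw [← hbi, ← Ac_mul_right, ← Ac_sub]
    exact Ac_congr fun d _ => by ring
  have h3 := Ac_cs (k*N+r) (fun w => (bi N (rv gi) k w : ℂ))
    (fun w => Yc N X t r' l w.reverse - Mc N gi X t r' l)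
  rw [← h2] at h3
  have h4 : Av (k*N+r) (fun d => ‖(bi N (rv gi) k d : ℂ)‖ ^ 2) = (1 - Av N gi)^k := by
    rw [← pav H, ← Av_bi N (rv gi) r k]
    exact Av_congr fun d _ => norm_bi_sq H.rev k d
  rw [h4] at h3
  have h5 : Av (k*N+r) (fun w => ‖Yc N X t r' l w.reverse - Mc N gi X t r' l‖^2) ≤
      ‖Mc N gi X t r' l‖ ^ 2 * Av (k*N+r) (fun w => Rc N gi X t r' σ ρ l w ((fun _ => 0) w)) := by
    rw [← Av_mul, Av_reverse (k*N+r) (fun w => ‖Yc N X t r' l w - Mc N gi X t r' l‖^2)]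
    refine Av_mono fun w _ => ?_
    have := Yc_close H P hr' l w 0
    rwa [neg_zero, ex_zero, one_mul] at this
  have h7 := Rc_avg H P.hθ P.hB P.hσ P.hρ0 P.hσρ P.hρ (normt P) hr' l (k*N+r) (k+1)
    (by rw [add_mul, one_mul]; omega) (fun _ => 0)
    (by simp only [abs_zero, mul_zero, Real.exp_zero]; rw [Av_const]; exact P.hB)
  have hε := P.hε
  calc _ ≤ _ := h3
    _ ≤ (1 - Av N gi)^k * (‖Mc N gi X t r' l‖ ^ 2 *
        ((2 * σ / (1 - σ * ρ))^2 * (216 * (‖t‖/θ)^2 * B^(k+1+1)))) := by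
        apply mul_le_mul_of_nonneg_left _ hp
        exact h5.trans (mul_le_mul_of_nonneg_left h7 (sq_nonneg _))
    _ = ‖Mc N gi X t r' l‖ ^ 2 * (((1 - Av N gi)^k * B^k) *
        ((2 * σ / (1 - σ * ρ))^2 * (216 * (‖t‖/θ)^2 * B^2))) := by
        rw [show k + 1 + 1 = k + 2 by ring, pow_add B k 2]; ring
    _ ≤ ‖Mc N gi X t r' l‖ ^ 2 * ((ρ^k)^2 * ε^2) := by
        apply mul_le_mul_of_nonneg_left _ (sq_nonneg _)
        exact mul_le_mul (aB H P k) hε (by positivity) (by positivity)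
    _ = _ := by ring

/-- **the partition function splits up to a factor close to one** -/
theorem two_sidedc (H : Hyp N gi X c0 θ B) {σ ρ ε : ℝ} {t : ℂ} (P : Par c0 θ B σ ρ ε ‖t‖)
    {r r' : ℕ} (hr : r ≤ N) (hr' : r' ≤ N) (k l : ℕ) :
    ‖Zc X t ((k*N+r) + (l*N+r')) - Mc N (rv gi) (rv X) t r k * Mc N gi X t r' l‖ ≤
      ε * (2 * σ / (1 - σ * ρ)) * (‖Mc N (rv gi) (rv X) t r k‖ * ‖Mc N gi X t r' l‖) := by
  obtain ⟨a1, -, -, -, -⟩ := main_indc H P hr' l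
  obtain ⟨b1, -, b3, b4, -⟩ := main_indc H.rev P hr k
  have hσ0 : 0 < σ := by linarith [P.hσ]
  have hρ0 := P.hρ0
  have hε0 := P.hε0
  set A := Mc N gi X t r' l with hA
  set C := Mc N (rv gi) (rv X) t r k with hC
  have e0 : Zc X t ((k*N+r) + (l*N+r')) - C * A =
      ∑ s ∈ range k, Ac N (fun g => (rv gi g : ℂ) * ((kouc N gi X t r' l s g -
        ((1 - Av N gi : ℝ) : ℂ)^s * A) * Yc N (rv X) t r (k-1-s) g)) +
      (louc N gi X t r r' k l - ((1 - Av N gi : ℝ) : ℂ)^k * A) := by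
    rw [outerc H t r r' k l, hC, Mc_eq, pav H]
    have h2 : ∀ s ∈ range k, Ac N (fun g => (rv gi g : ℂ) * ((kouc N gi X t r' l s g -
        ((1 - Av N gi : ℝ) : ℂ)^s * A) * Yc N (rv X) t r (k-1-s) g)) =
        Ac N (fun g => (rv gi g : ℂ) * (kouc N gi X t r' l s g * Yc N (rv X) t r (k-1-s) g)) -
        (((1 - Av N gi : ℝ) : ℂ)^s * Ac N (fun g => (rv gi g : ℂ) *
          Yc N (rv X) t r (k-1-s) g)) * A := by
      intro s _
      rw [mul_right_comm, ← Ac_mul, ← Ac_sub]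
      exact Ac_congr fun g _ => by ring
    rw [Finset.sum_congr rfl h2, Finset.sum_sub_distrib, ← Finset.sum_mul]
    ring
  have h1 : ‖Zc X t ((k*N+r) + (l*N+r')) - C * A‖ ≤
      ∑ s ∈ range (k+1), (ε * (‖C‖ * ‖A‖)) * (2 * σ^(s+1) * ρ^s) := by
    rw [e0, Finset.sum_range_succ]
    refine (norm_add_le _ _).trans (add_le_add ?_ ?_)
    · refine (norm_sum_le _ _).trans (Finset.sum_le_sum fun s hs => ?_)
      rw [Finset.mem_range] at hs
      refine (cs_gc H.rev _ _).trans ?_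
      have h3 := b3 (k-1-s) (by omega)
      rw [show k - (k-1-s) = s+1 by omega] at h3
      have h4 := kouc_close H P hr' l s
      calc _ ≤ (‖A‖ * (ρ^s * ε)) * (2 * σ^(s+1) * ‖C‖) :=
            mul_le_mul h4 h3 (Real.sqrt_nonneg _) (by positivity)
        _ = _ := by ring
    · refine (louc_close H P hr hr' k l).trans ?_
      have h5 : 1 ≤ ‖C‖ * (2 * σ^(k+1)) := by
        have h6 : σ^k ≤ σ^(k+1) := pow_le_pow_right₀ P.hσ.le (by omega)
        have h7 : σ^k * ‖C‖ ≤ σ^(k+1) * ‖C‖ := mul_le_mul_of_nonneg_right h6 b1.le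
        nlinarith [mul_pos (pow_pos hσ0 (k+1)) b1]
      calc ‖A‖ * (ρ^k * ε) ≤ (‖C‖ * (2 * σ^(k+1))) * (‖A‖ * (ρ^k * ε)) :=
            le_mul_of_one_le_left (by positivity) h5
        _ = _ := by ring
  refine h1.trans ?_
  rw [← Finset.mul_sum]
  have h2 : ∑ s ∈ range (k+1), 2 * σ^(s+1) * ρ^s = 2 * σ * ∑ s ∈ range (k+1), (σ * ρ)^s := by
    rw [Finset.mul_sum]
    exact Finset.sum_congr rfl fun s _ => by rw [mul_pow, pow_succ]; ring
  have h3 : ∑ s ∈ range (k+1), 2 * σ^(s+1) * ρ^s ≤ 2 * σ / (1 - σ * ρ) := by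
    rw [h2, div_eq_mul_inv]
    apply mul_le_mul_of_nonneg_left _ (by positivity)
    have hσρ := P.hσρ
    have h3 := geom_sum_eq (x := σ * ρ) (by linarith : σ * ρ ≠ 1) (k+1)
    have hx0 : 0 ≤ σ * ρ := by positivity
    rw [h3, div_eq_mul_inv, show (σ * ρ)^(k+1) - 1 = -(1 - (σ * ρ)^(k+1)) by ring,
      show σ * ρ - 1 = -(1 - σ * ρ) by ring, inv_neg, neg_mul_neg]
    have h4 : 1 - (σ * ρ)^(k+1) ≤ 1 := by linarith [pow_nonneg hx0 (k+1)]
    have h5 : 0 < (1 - σ * ρ)⁻¹ := inv_pos.2 (by linarith)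
    nlinarith
  calc (ε * (‖C‖ * ‖A‖)) * ∑ s ∈ range (k+1), 2 * σ^(s+1) * ρ^s
      ≤ (ε * (‖C‖ * ‖A‖)) * (2 * σ / (1 - σ * ρ)) := mul_le_mul_of_nonneg_left h3 (by positivity)
    _ = _ := by ring

theorem ratio_close {Z P Q C A : ℂ} {δ : ℝ} (hC : C ≠ 0) (hA : A ≠ 0) (hδ0 : 0 ≤ δ)
    (hδ : δ ≤ 1/16) (h1 : ‖Z - C * A‖ ≤ δ * (‖C‖ * ‖A‖)) (h2 : ‖P - C‖ ≤ δ * ‖C‖)
    (h3 : ‖Q - A‖ ≤ δ * ‖A‖) :
    P ≠ 0 ∧ Q ≠ 0 ∧ ‖Z / (P * Q) - 1‖ ≤ 8 * δ := by
  have nC : 0 < ‖C‖ := norm_pos_iff.2 hC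
  have nA : 0 < ‖A‖ := norm_pos_iff.2 hA
  have kP : (15/16) * ‖C‖ ≤ ‖P‖ := by
    have := norm_sub_norm_le C P
    rw [norm_sub_rev] at this
    nlinarith
  have kQ : (15/16) * ‖A‖ ≤ ‖Q‖ := by
    have := norm_sub_norm_le A Q
    rw [norm_sub_rev] at this
    nlinarith
  have hP : P ≠ 0 := norm_pos_iff.1 (lt_of_lt_of_le (by positivity) kP)
  have hQ : Q ≠ 0 := norm_pos_iff.1 (lt_of_lt_of_le (by positivity) kQ)
  refine ⟨hP, hQ, ?_⟩
  have e1 : Z / (P * Q) - 1 = (Z - P * Q) / (P * Q) := by field_simp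
  rw [e1, norm_div, norm_mul, div_le_iff₀ (mul_pos (norm_pos_iff.2 hP) (norm_pos_iff.2 hQ))]
  have e2 : Z - P * Q = (Z - C * A) - (P - C) * A - C * (Q - A) - (P - C) * (Q - A) := by ring
  have h4 : ‖Z - P * Q‖ ≤ 4 * δ * (‖C‖ * ‖A‖) := by
    rw [e2]
    have t1 := norm_sub_le ((Z - C * A) - (P - C) * A - C * (Q - A)) ((P - C) * (Q - A))
    have t2 := norm_sub_le ((Z - C * A) - (P - C) * A) (C * (Q - A))
    have t3 := norm_sub_le (Z - C * A) ((P - C) * A)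
    rw [norm_mul] at t1 t2 t3
    have s1 : ‖P - C‖ * ‖A‖ ≤ δ * ‖C‖ * ‖A‖ := mul_le_mul_of_nonneg_right h2 nA.le
    have s2 : ‖C‖ * ‖Q - A‖ ≤ ‖C‖ * (δ * ‖A‖) := mul_le_mul_of_nonneg_left h3 nC.le
    have s3 : ‖P - C‖ * ‖Q - A‖ ≤ (δ * ‖C‖) * (δ * ‖A‖) :=
      mul_le_mul h2 h3 (norm_nonneg _) (by positivity)
    have s4 : (δ * ‖C‖) * (δ * ‖A‖) ≤ δ * (‖C‖ * ‖A‖) := by
      have : δ * δ ≤ δ := by nlinarith
      have := mul_le_mul_of_nonneg_right this (mul_pos nC nA).le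
      linarith
    linarith
  have h5 : (1/2) * (‖C‖ * ‖A‖) ≤ ‖P‖ * ‖Q‖ := by
    have : ((15/16) * ‖C‖) * ((15/16) * ‖A‖) ≤ ‖P‖ * ‖Q‖ :=
      mul_le_mul kP kQ (by positivity) (norm_nonneg _)
    nlinarith [mul_pos nC nA]
  have h6 : 8 * δ * ((1/2) * (‖C‖ * ‖A‖)) ≤ 8 * δ * (‖P‖ * ‖Q‖) :=
    mul_le_mul_of_nonneg_left h5 (by positivity)
  linarith

/-- **uniform almost multiplicativity, complex parameters** -/
theorem quasic (c0 θ B : ℝ) (hc : 0 < c0) (hc1 : c0 ≤ 1) (hθ : 0 < θ) (hB : 1 ≤ B) :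
    ∃ t0 : ℝ, 0 < t0 ∧ ∀ (β : Type) [Fintype β] [Nonempty β] (N : ℕ)
      (gi X : List β → ℝ), 1 ≤ N → Hyp N gi X c0 θ B → ∀ t : ℂ, ‖t‖ ≤ t0 → ∀ M M' : ℕ,
        Zc X t M ≠ 0 ∧ Zc X t M' ≠ 0 ∧
        ‖Zc X t (M + M') / (Zc X t M * Zc X t M') - 1‖ ≤ 1/2 := by
  have hlim : Filter.Tendsto (fun j : ℕ => (1 - c0) * B^((1/2:ℝ)^j)) Filter.atTop
      (nhds ((1 - c0) * B^(0:ℝ))) := by
    apply Filter.Tendsto.const_mul
    have h1 : Filter.Tendsto (fun j : ℕ => (1/2:ℝ)^j) Filter.atTop (nhds 0) :=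
      tendsto_pow_atTop_nhds_zero_of_lt_one (by norm_num) (by norm_num)
    exact (Real.continuousAt_const_rpow (by linarith : B ≠ 0)).tendsto.comp h1
  rw [Real.rpow_zero, mul_one] at hlim
  obtain ⟨j, hj⟩ := (hlim.eventually (gt_mem_nhds (show 1 - c0 < 1 - c0/2 by linarith))).exists
  set θ' := θ / 2^j with hθ'
  set B' := B^((1/2:ℝ)^j) with hB'
  have hθ0 : 0 < θ' := by positivity
  have hB1 : 1 ≤ B' := Real.one_le_rpow hB (by positivity)
  set ρ := √(1 - c0/2) with hρ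
  have hρ2 : ρ^2 = 1 - c0/2 := Real.sq_sqrt (by linarith)
  have hρ0 : 0 < ρ := Real.sqrt_pos.2 (by linarith)
  have hρ1 : ρ < 1 := by nlinarith
  set σ := 1/√ρ with hσd
  have hsρ0 : 0 < √ρ := Real.sqrt_pos.2 hρ0
  have hsρ1 : √ρ < 1 := by
    rw [← Real.sqrt_one]
    exact Real.sqrt_lt_sqrt hρ0.le hρ1
  have hσ : 1 < σ := by rw [hσd, lt_div_iff₀ hsρ0]; linarith
  have hσρ : σ * ρ = √ρ := by
    rw [hσd]
    have := Real.mul_self_sqrt hρ0.le
    field_simp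
    nlinarith
  have hσρ1 : σ * ρ < 1 := by rw [hσρ]; exact hsρ1
  set S := 2 * σ / (1 - σ * ρ) with hS
  have hS0 : 0 < S := by
    have : 0 < 1 - σ * ρ := by linarith
    positivity
  set a := S * √216 * B' / θ' with ha
  have ha0 : 0 < a := by positivity
  set e0 := 1 - 1/σ with he0
  have he00 : 0 < e0 := by
    rw [he0, sub_pos, div_lt_one (by linarith)]; exact hσ
  refine ⟨min (θ'/12) (min (e0/a) (1/(16*S*a))), by positivity, ?_⟩
  intro β _ _ N gi X hN H0 t ht M M'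
  have H := H0.pow hB j
  have ht1 : ‖t‖ ≤ θ'/12 := ht.trans (min_le_left _ _)
  have ht2 : ‖t‖ ≤ e0/a := ht.trans ((min_le_right _ _).trans (min_le_left _ _))
  have ht3 : ‖t‖ ≤ 1/(16*S*a) := ht.trans ((min_le_right _ _).trans (min_le_right _ _))
  set ε := a * ‖t‖ with hε
  have hε0 : 0 ≤ ε := by positivity
  have hεe : ε ≤ e0 := by
    rw [hε, mul_comm]; exact (le_div_iff₀ ha0).1 ht2
  have hεS : ε * S ≤ 1/16 := by
    have := (le_div_iff₀ (by positivity : 0 < 16*S*a)).1 ht3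
    rw [hε]; nlinarith
  have P : Par c0 θ' B' σ ρ ε ‖t‖ := by
    refine ⟨hθ0, hB1, hσ, hρ0, hσρ1, ?_, by rwa [abs_of_nonneg (norm_nonneg t)], hε0, ?_, ?_, ?_⟩
    · rw [hρ2]; exact hj.le
    · apply le_of_eq
      have h216 : √216 ^ 2 = (216:ℝ) := Real.sq_sqrt (by norm_num)
      calc (2 * σ / (1 - σ * ρ))^2 * (216 * (‖t‖/θ')^2 * B'^2)
          = S^2 * (√216^2 * (‖t‖/θ')^2 * B'^2) := by rw [h216]
        _ = (S * √216 * B' / θ')^2 * ‖t‖^2 := by ring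
        _ = ε^2 := by rw [← ha, hε, mul_pow]
    · have h1 : σ * (1 - ε) ≥ σ * (1 - e0) := mul_le_mul_of_nonneg_left (by linarith) (by linarith)
      have h2 : σ * (1 - e0) = 1 := by
        rw [he0]
        have : σ ≠ 0 := by linarith
        field_simp
        ring
      linarith
    · have : 0 < 1/σ := by positivity
      linarith
  have hdM : M / N * N + M % N = M := Nat.div_add_mod' M N
  have hdM' : M' / N * N + M' % N = M' := Nat.div_add_mod' M' N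
  have hr : M % N ≤ N := (Nat.mod_lt _ (by omega)).le
  have hr' : M' % N ≤ N := (Nat.mod_lt _ (by omega)).le
  obtain ⟨A0, -⟩ := main_indc H P hr' (M'/N)
  obtain ⟨C0, -⟩ := main_indc H.rev P hr (M/N)
  set A := Mc N gi X t (M'%N) (M'/N) with hA
  set C := Mc N (rv gi) (rv X) t (M%N) (M/N) with hC
  have t1 := two_sidedc H P hr hr' (M/N) (M'/N)
  have t2 := two_sidedc H P hr (Nat.zero_le N) (M/N) 0
  have t3 := two_sidedc H P (Nat.zero_le N) hr' 0 (M'/N)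
  have e1 : Mc N gi X t 0 0 = 1 := rfl
  have e2 : Mc N (rv gi) (rv X) t 0 0 = 1 := rfl
  rw [hdM, hdM', ← hC, ← hA, ← hS] at t1
  rw [hdM, ← hC, ← hS, e1, mul_one, zero_mul, add_zero, add_zero, norm_one, mul_one] at t2
  rw [hdM', ← hA, ← hS, e2, one_mul, zero_mul, zero_add, zero_add, norm_one, one_mul] at t3
  have hδ0 : 0 ≤ ε * S := by positivity
  obtain ⟨q1, q2, q3⟩ := ratio_close (norm_pos_iff.1 C0) (norm_pos_iff.1 A0) hδ0 hεS t1 t2 t3
  exact ⟨q1, q2, q3.trans (by linarith)⟩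

end Pool.Agent.Zk36.UC
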